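import Mathlib

open scoped InnerProductSpace ENNReal ComplexConjugate
open Filter Topology

namespace Pool.Agent.Results.MP_426ceb_an.NoNested

/-- `u` is a `Π_lam`-basis of `X`: a sequence of finite-rank projections of norm at most `lam`
with `u n x → x` for every `x`. -/
structure IsCapPiBasis (𝕜 : Type) [RCLike 𝕜] (X : Type) [NormedAddCommGroup X] [NormedSpace 𝕜 X]
    (lam : ℝ) (u : ℕ → X →L[𝕜] X) : Prop where
  proj : ∀ n x, u n (u n x) = u n x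
  finite_rank : ∀ n, FiniteDimensional 𝕜 (LinearMap.range (u n).toLinearMap)
  norm_le : ∀ n, ‖u n‖ ≤ lam
  tendsto : ∀ x, Tendsto (fun n => u n x) atTop (𝓝 x)

/-- `u` is a `π_lam`-basis of `X`: a `Π_lam`-basis with increasing ranges. -/
structure IsPiBasis (𝕜 : Type) [RCLike 𝕜] (X : Type) [NormedAddCommGroup X] [NormedSpace 𝕜 X]
    (lam : ℝ) (u : ℕ → X →L[𝕜] X) : Prop extends IsCapPiBasis 𝕜 X lam u where
  nested : ∀ m n, m ≤ n →
    LinearMap.range (u m).toLinearMap ≤ LinearMap.range (u n).toLinearMap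

noncomputable section

section PartA

variable (𝕜 : Type) [RCLike 𝕜]

abbrev H := lp (fun _ : ℕ => 𝕜) 2

variable {𝕜}

def e (j : ℕ) : H 𝕜 := lp.single 2 j (1 : 𝕜)

lemma e_apply_self (j : ℕ) : (e j : H 𝕜) j = 1 := by simp [e]

lemma e_apply_ne {i j : ℕ} (h : i ≠ j) : (e j : H 𝕜) i = 0 := by
  simp [e, lp.single_apply_ne, h]

lemma inner_e_left (j : ℕ) (x : H 𝕜) : ⟪e j, x⟫_𝕜 = x j := by
  simp [e, lp.inner_single_left]

/-- real sequences as elements of the Hilbert space -/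
lemma memlp_geom (r : ℝ) (h0 : 0 ≤ r) (h1 : r < 1) :
    Memℓp (fun j : ℕ => ((r ^ j : ℝ) : 𝕜)) 2 := by
  apply memℓp_gen
  have h2 : r ^ 2 < 1 := by nlinarith
  have := summable_geometric_of_lt_one (by positivity : 0 ≤ r ^ 2) h2
  refine this.congr ?_
  intro j
  have : ((2 : ENNReal).toReal) = (2 : ℕ) := by norm_num
  rw [this, Real.rpow_natCast]
  simp only [RCLike.norm_ofReal]
  rw [sq_abs]
  ring

def geo (r : ℝ) (h0 : 0 ≤ r) (h1 : r < 1) : H 𝕜 := ⟨fun j => ((r ^ j : ℝ) : 𝕜), memlp_geom r h0 h1⟩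

def q : H 𝕜 := geo (1 / 2) (by norm_num) (by norm_num)
def w : H 𝕜 := geo (1 / 4) (by norm_num) (by norm_num)

lemma q_apply (j : ℕ) : (q : H 𝕜) j = (((1 / 2 : ℝ) ^ j : ℝ) : 𝕜) := rfl
lemma w_apply (j : ℕ) : (w : H 𝕜) j = (((1 / 4 : ℝ) ^ j : ℝ) : 𝕜) := rfl

/-- the second special generator of the range of `P n` -/
def f (n : ℕ) : H 𝕜 := e 0 + (((1 / 2 : ℝ) ^ (n + 1) : ℝ) : 𝕜) • e (n + 1)

variable (𝕜) in
def K (n : ℕ) : Submodule 𝕜 (H 𝕜) :=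
  Submodule.span 𝕜 (insert (f n) ((e : ℕ → H 𝕜) '' (Set.Icc 1 n)))

instance (n : ℕ) : FiniteDimensional 𝕜 (K 𝕜 n) := by
  apply FiniteDimensional.span_of_finite
  exact ((Set.finite_Icc 1 n).image _).insert _

lemma f_mem (n : ℕ) : (f n : H 𝕜) ∈ K 𝕜 n := Submodule.subset_span (Set.mem_insert _ _)
lemma e_mem {n j : ℕ} (h1 : 1 ≤ j) (h2 : j ≤ n) : (e j : H 𝕜) ∈ K 𝕜 n :=
  Submodule.subset_span (Set.mem_insert_of_mem _ ⟨j, ⟨h1, h2⟩, rfl⟩)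

def P (n : ℕ) : H 𝕜 →L[𝕜] H 𝕜 := (K 𝕜 n).starProjection

lemma K_zero_of_gt {n : ℕ} {x : H 𝕜} (hx : x ∈ K 𝕜 n) {j : ℕ} (hj : n + 1 < j) : x j = 0 := by
  induction hx using Submodule.span_induction with
  | mem x hx =>
    rcases hx with rfl | ⟨i, ⟨hi1, hi2⟩, rfl⟩
    · simp only [f, lp.coeFn_add, lp.coeFn_smul, Pi.add_apply, Pi.smul_apply]
      rw [e_apply_ne (by omega), e_apply_ne (by omega)]
      simp
    · exact e_apply_ne (by omega)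
  | zero => simp
  | add x y _ _ hx hy => simp [hx, hy]
  | smul a x _ hx => simp [hx]

lemma K_rel {n : ℕ} {x : H 𝕜} (hx : x ∈ K 𝕜 n) :
    x (n + 1) = (((1 / 2 : ℝ) ^ (n + 1) : ℝ) : 𝕜) * x 0 := by
  induction hx using Submodule.span_induction with
  | mem x hx =>
    rcases hx with rfl | ⟨i, ⟨hi1, hi2⟩, rfl⟩
    · simp only [f, lp.coeFn_add, lp.coeFn_smul, Pi.add_apply, Pi.smul_apply]
      rw [e_apply_ne (by omega : n + 1 ≠ 0), e_apply_self, e_apply_self,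
        e_apply_ne (by omega : 0 ≠ n + 1)]
      simp
    · rw [e_apply_ne (by omega), e_apply_ne (by omega)]
      simp
  | zero => simp
  | add x y _ _ hx hy => simp only [lp.coeFn_add, Pi.add_apply, hx, hy]; ring
  | smul a x _ hx => simp only [lp.coeFn_smul, Pi.smul_apply, hx, smul_eq_mul]; ring

lemma P_mem (n : ℕ) (x : H 𝕜) : P n x ∈ K 𝕜 n := Submodule.starProjection_apply_mem _ _

lemma P_gt {n j : ℕ} (x : H 𝕜) (hj : n + 1 < j) : (P n x) j = 0 := K_zero_of_gt (P_mem n x) hj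

lemma P_mid {n j : ℕ} (x : H 𝕜) (h1 : 1 ≤ j) (h2 : j ≤ n) : (P n x) j = x j := by
  have h := Submodule.starProjection_inner_eq_zero x (e j) (K := K 𝕜 n) (e_mem h1 h2)
  rw [← inner_conj_symm, inner_e_left] at h
  simp only [map_eq_zero, lp.coeFn_sub, Pi.sub_apply] at h
  exact (sub_eq_zero.mp h).symm

lemma P_rel (n : ℕ) (x : H 𝕜) :
    (P n x) (n + 1) = (((1 / 2 : ℝ) ^ (n + 1) : ℝ) : 𝕜) * (P n x) 0 := K_rel (P_mem n x)

lemma P_avg (n : ℕ) (x : H 𝕜) :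
    (P n x) 0 + (((1 / 2 : ℝ) ^ (n + 1) : ℝ) : 𝕜) * (P n x) (n + 1)
      = x 0 + (((1 / 2 : ℝ) ^ (n + 1) : ℝ) : 𝕜) * x (n + 1) := by
  have h := Submodule.starProjection_inner_eq_zero x (f n) (K := K 𝕜 n) (f_mem n)
  rw [← inner_conj_symm, f, inner_add_left, inner_smul_left, inner_e_left, inner_e_left] at h
  simp only [map_eq_zero, lp.coeFn_sub, Pi.sub_apply, RCLike.conj_ofReal] at h
  change x 0 - (P n x) 0 + _ * (x (n+1) - (P n x) (n+1)) = 0 at h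
  linear_combination -h

lemma P_idem (n : ℕ) (x : H 𝕜) : P n (P n x) = P n x :=
  Submodule.starProjection_eq_self_iff.mpr (P_mem n x)

lemma P_symm (n : ℕ) (x y : H 𝕜) : ⟪P n x, y⟫_𝕜 = ⟪x, P n y⟫_𝕜 :=
  Submodule.inner_starProjection_left_eq_right _ _ _

lemma P_norm (n : ℕ) (x : H 𝕜) : ‖P n x‖ ≤ ‖x‖ := Submodule.norm_starProjection_apply_le _ _

end PartA

section PartB

variable {𝕜 : Type} [RCLike 𝕜]

/-- strong convergence of `P n` -/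
lemma P_tendsto (x : H 𝕜) : Tendsto (fun n => P n x) atTop (𝓝 x) := by
  -- approximants in `K n`
  let z : ℕ → H 𝕜 := fun n => (∑ j ∈ Finset.range (n + 1), lp.single 2 j (x j))
    + ((((1 / 2 : ℝ) ^ (n + 1) : ℝ) : 𝕜) * x 0) • e (n + 1)
  have hz : ∀ n, z n ∈ K 𝕜 n := by
    intro n
    have h1 : z n = x 0 • f n + ∑ j ∈ Finset.range n, x (j + 1) • e (j + 1) := by
      simp only [z, f, smul_add, smul_smul]
      rw [Finset.sum_range_succ']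
      have h2 : ∀ j, lp.single 2 j (x j) = x j • (e j : H 𝕜) := by
        intro j
        rw [e, ← lp.single_smul]; simp
      simp only [h2]
      rw [mul_comm (x 0)]
      abel
    rw [h1]
    refine Submodule.add_mem _ (Submodule.smul_mem _ _ (f_mem n)) (Submodule.sum_mem _ ?_)
    intro j hj
    exact Submodule.smul_mem _ _ (e_mem (by omega) (by have := Finset.mem_range.mp hj; omega))
  have hlim : Tendsto z atTop (𝓝 x) := by
    have h1 : Tendsto (fun n => ∑ j ∈ Finset.range (n + 1), lp.single 2 j (x j)) atTop (𝓝 x) :=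
      ((lp.hasSum_single (by norm_num) x).tendsto_sum_nat).comp (tendsto_add_atTop_nat 1)
    have h2 : Tendsto (fun n : ℕ => ((((1 / 2 : ℝ) ^ (n + 1) : ℝ) : 𝕜) * x 0) • (e (n + 1) : H 𝕜))
        atTop (𝓝 0) := by
      rw [tendsto_zero_iff_norm_tendsto_zero]
      have h3 : ∀ n : ℕ, ‖((((1 / 2 : ℝ) ^ (n + 1) : ℝ) : 𝕜) * x 0) • (e (n + 1) : H 𝕜)‖
          = (1 / 2 : ℝ) ^ (n + 1) * ‖x 0‖ := by
        intro n
        rw [norm_smul, norm_mul, RCLike.norm_ofReal, e, lp.norm_single (by norm_num)]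
        rw [abs_of_nonneg (by positivity)]
        simp
      simp only [h3]
      have h4 : Tendsto (fun n : ℕ => (1 / 2 : ℝ) ^ (n + 1) * ‖x 0‖) atTop (𝓝 (0 * ‖x 0‖)) :=
        (((tendsto_pow_atTop_nhds_zero_of_lt_one (by norm_num) (by norm_num)).comp
          (tendsto_add_atTop_nat 1))).mul_const _
      simpa using h4
    have := h1.add h2
    simpa [z] using this
  rw [tendsto_iff_norm_sub_tendsto_zero] at hlim ⊢
  refine squeeze_zero (fun _ => norm_nonneg _) (fun n => ?_) (by simpa using hlim)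
  -- minimality
  have h1 : P n x - x = -((x - z n) - P n (x - z n)) := by
    have : P n (z n) = z n := Submodule.starProjection_eq_self_iff.mpr (hz n)
    rw [map_sub, this]; abel
  rw [h1, norm_neg]
  have h2 : ∀ y : H 𝕜, ‖y - P n y‖ ≤ ‖y‖ := by
    intro y
    have h := P_symm n y (y - P n y)
    rw [map_sub, P_idem, sub_self, inner_zero_right] at h
    have h3 : ‖y‖ * ‖y‖ = ‖P n y‖ * ‖P n y‖ + ‖y - P n y‖ * ‖y - P n y‖ := by
      have := norm_add_sq_eq_norm_sq_add_norm_sq_of_inner_eq_zero (P n y) (y - P n y) h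
      simpa using this
    nlinarith [norm_nonneg y, norm_nonneg (y - P n y), norm_nonneg (P n y)]
  rw [norm_sub_rev]
  calc _ = ‖(x - z n) - P n (x - z n)‖ := by rw [norm_sub_rev]
    _ ≤ ‖x - z n‖ := h2 _
    _ = ‖z n - x‖ := norm_sub_rev _ _

lemma P_finite (n : ℕ) : FiniteDimensional 𝕜 (LinearMap.range (P n : H 𝕜 →L[𝕜] H 𝕜).toLinearMap) := by
  have h : LinearMap.range (P n : H 𝕜 →L[𝕜] H 𝕜).toLinearMap ≤ K 𝕜 n := by
    rintro _ ⟨x, rfl⟩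
    exact P_mem n x
  exact Submodule.finiteDimensional_of_le h

/-- scaled real coordinates -/
def U (x : H 𝕜) (j : ℕ) : ℝ := 2 ^ j * RCLike.re (x j)

/-- the averaging weight -/
def mu (n : ℕ) : ℝ := (1 / 4 : ℝ) ^ n

lemma mu_pos (n : ℕ) : 0 < mu n := by unfold mu; positivity

lemma U_gt {n j : ℕ} (x : H 𝕜) (hj : n + 1 < j) : U (P n x) j = 0 := by
  simp [U, P_gt x hj]

lemma U_mid {n j : ℕ} (x : H 𝕜) (h1 : 1 ≤ j) (h2 : j ≤ n) : U (P n x) j = U x j := by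
  simp [U, P_mid x h1 h2]

lemma U_rel (n : ℕ) (x : H 𝕜) : U (P n x) (n + 1) = U (P n x) 0 := by
  simp only [U, P_rel, RCLike.re_ofReal_mul]
  rw [← mul_assoc, ← mul_pow]
  norm_num

lemma U_avg (n : ℕ) (x : H 𝕜) :
    (1 + mu (n + 1)) * U (P n x) 0 = U x 0 + mu (n + 1) * U x (n + 1) := by
  have h := congrArg RCLike.re (P_avg n x)
  simp only [map_add, RCLike.re_ofReal_mul] at h
  have h2 := U_rel n x
  have h3 : (1 / 2 : ℝ) ^ (n + 1) = mu (n + 1) * 2 ^ (n + 1) := by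
    rw [mu, ← mul_pow]; norm_num
  rw [h3] at h
  simp only [U, pow_zero, one_mul] at h2 ⊢
  linear_combination h - mu (n + 1) * h2

end PartB

section PartC

variable {𝕜 : Type} [RCLike 𝕜]

lemma hasSum_re_inner (a x : H 𝕜) :
    HasSum (fun j => RCLike.re (⟪a j, x j⟫_𝕜)) (RCLike.re ⟪a, x⟫_𝕜) :=
  RCLike.hasSum_re _ (lp.hasSum_inner a x)

/-- `yy x = re ⟪q, x⟫` -/
def yy (x : H 𝕜) : ℝ := RCLike.re ⟪(q : H 𝕜), x⟫_𝕜

lemma hasSum_yy (x : H 𝕜) : HasSum (fun j => mu j * U x j) (yy x) := by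
  have h := hasSum_re_inner (q : H 𝕜) x
  have h3 : (fun j => RCLike.re (⟪(q : H 𝕜) j, x j⟫_𝕜)) = fun j => mu j * U x j := by
    funext j
    rw [q_apply, RCLike.inner_apply, RCLike.conj_ofReal, RCLike.re_mul_ofReal, U, mu]
    have : (1 / 4 : ℝ) ^ j = (1 / 2) ^ j * (1 / 2) ^ j := by rw [← mul_pow]; norm_num
    rw [this]
    have h2 : (1 / 2 : ℝ) ^ j * 2 ^ j = 1 := by rw [← mul_pow]; norm_num
    linear_combination -(1 / 2 : ℝ) ^ j * RCLike.re (x j) * h2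
  rw [h3] at h
  exact h

lemma yy_mono {x z : H 𝕜} (h : ∀ j, U x j ≤ U z j) : yy x ≤ yy z :=
  hasSum_le (fun j => mul_le_mul_of_nonneg_left (h j) (mu_pos j).le) (hasSum_yy x) (hasSum_yy z)

lemma U_add (x z : H 𝕜) (j : ℕ) : U (x + z) j = U x j + U z j := by
  simp [U, mul_add]

lemma U_sub (x z : H 𝕜) (j : ℕ) : U (x - z) j = U x j - U z j := by
  simp [U, mul_sub]

lemma U_smul (r : ℝ) (x : H 𝕜) (j : ℕ) : U ((r : 𝕜) • x) j = r * U x j := by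
  simp only [U, lp.coeFn_smul, Pi.smul_apply, smul_eq_mul, RCLike.re_ofReal_mul]; ring

lemma U_q (j : ℕ) : U (q : H 𝕜) j = 1 := by
  rw [U, q_apply, RCLike.ofReal_re, ← mul_pow]; norm_num

lemma U_w (j : ℕ) : U (w : H 𝕜) j = (1 / 2 : ℝ) ^ j := by
  rw [U, w_apply, RCLike.ofReal_re, ← mul_pow]; norm_num

/-- truncated pairing -/
def Y (M : ℕ) (x : H 𝕜) : ℝ := ∑ j ∈ Finset.range (M + 1), mu j * U x j

/-- truncated pairing of `q` and `w` -/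
def YW (M : ℕ) : ℝ := ∑ j ∈ Finset.range (M + 1), mu j * (1 / 2 : ℝ) ^ j

lemma Y_le_yy {x : H 𝕜} (h : ∀ j, 0 ≤ U x j) (M : ℕ) : Y M x ≤ yy x :=
  sum_le_hasSum _ (fun j _ => mul_nonneg (mu_pos j).le (h j)) (hasSum_yy x)

lemma YW_succ (M : ℕ) : YW (M + 1) = YW M + mu (M + 1) * (1 / 2 : ℝ) ^ (M + 1) := by
  rw [YW, Finset.sum_range_succ, ← YW]

lemma term_pos (M : ℕ) : 0 < mu M * (1 / 2 : ℝ) ^ M := mul_pos (mu_pos _) (by positivity)

lemma YW_mono {M N : ℕ} (h : M ≤ N) : YW M ≤ YW N := by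
  induction h with
  | refl => exact le_rfl
  | @step m _ ih =>
    rw [Nat.succ_eq_add_one, YW_succ]
    linarith [term_pos (m + 1)]

lemma YW_strict {M N : ℕ} (h : M < N) : YW M + mu N * (1 / 2 : ℝ) ^ N ≤ YW N := by
  obtain ⟨k, rfl⟩ : ∃ k, N = k + 1 := ⟨N - 1, by omega⟩
  rw [YW_succ]
  linarith [YW_mono (show M ≤ k by omega)]

lemma one_le_YW (M : ℕ) : 1 ≤ YW M := by
  have := YW_mono (Nat.zero_le M)
  simpa [YW, mu] using this

lemma Y_w (M : ℕ) : Y M (w : H 𝕜) = YW M := by simp [Y, YW, U_w]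

/-- real vectors between `0` and `q` -/
def D1 (x : H 𝕜) : Prop := ∀ j, RCLike.im (x j) = 0 ∧ 0 ≤ U x j ∧ U x j ≤ 1

lemma D1_q : D1 (q : H 𝕜) := fun j => ⟨by simp [q_apply], by simp [U_q], by simp [U_q]⟩

lemma D1_w : D1 (w : H 𝕜) := fun j => ⟨by simp [w_apply], by rw [U_w]; positivity,
  by rw [U_w]; exact pow_le_one₀ (by norm_num) (by norm_num)⟩

lemma avg_le {n : ℕ} {x : H 𝕜} {m : ℝ} (h0 : U x 0 ≤ m) (h1 : U x (n + 1) ≤ m) :
    U (P n x) 0 ≤ m := by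
  have h := U_avg n x
  have hm := mu_pos (n + 1)
  nlinarith

lemma le_avg {n : ℕ} {x : H 𝕜} {m : ℝ} (h0 : m ≤ U x 0) (h1 : m ≤ U x (n + 1)) :
    m ≤ U (P n x) 0 := by
  have h := U_avg n x
  have hm := mu_pos (n + 1)
  nlinarith

lemma P_cases (n j : ℕ) : j = 0 ∨ (1 ≤ j ∧ j ≤ n) ∨ j = n + 1 ∨ n + 1 < j := by omega

lemma U_P_le {n : ℕ} {x : H 𝕜} {m : ℝ} (hm : 0 ≤ m) (h : ∀ j, U x j ≤ m) (j : ℕ) :
    U (P n x) j ≤ m := by
  rcases P_cases n j with rfl | ⟨h1, h2⟩ | rfl | h1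
  · exact avg_le (h _) (h _)
  · rw [U_mid x h1 h2]; exact h _
  · rw [U_rel]; exact avg_le (h _) (h _)
  · rw [U_gt x h1]; exact hm

lemma U_P_nonneg {n : ℕ} {x : H 𝕜} (h : ∀ j, 0 ≤ U x j) (j : ℕ) : 0 ≤ U (P n x) j := by
  rcases P_cases n j with rfl | ⟨h1, h2⟩ | rfl | h1
  · exact le_avg (h _) (h _)
  · rw [U_mid x h1 h2]; exact h _
  · rw [U_rel]; exact le_avg (h _) (h _)
  · rw [U_gt x h1]

lemma im_P {n : ℕ} {x : H 𝕜} (h : ∀ j, RCLike.im (x j) = 0) (j : ℕ) :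
    RCLike.im ((P n x) j) = 0 := by
  have h0 : RCLike.im ((P n x) 0) = 0 := by
    have h1 := congrArg RCLike.im (P_avg n x)
    have h2 := congrArg RCLike.im (P_rel n x)
    simp only [map_add, RCLike.im_ofReal_mul] at h1 h2
    rw [h2, h 0, h (n + 1)] at h1
    have h3 : (1 + (1 / 2 : ℝ) ^ (n + 1) * (1 / 2 : ℝ) ^ (n + 1)) * RCLike.im ((P n x) 0) = 0 := by
      linear_combination h1
    have h4 : (1 + (1 / 2 : ℝ) ^ (n + 1) * (1 / 2 : ℝ) ^ (n + 1)) ≠ 0 := by positivity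
    exact (mul_eq_zero.mp h3).resolve_left h4
  rcases P_cases n j with rfl | ⟨h1, h2⟩ | rfl | h1
  · exact h0
  · rw [P_mid x h1 h2]; exact h _
  · rw [P_rel, RCLike.im_ofReal_mul, h0, mul_zero]
  · rw [P_gt x h1]; simp

lemma D1_P {n : ℕ} {x : H 𝕜} (h : D1 x) : D1 (P n x) := fun j =>
  ⟨im_P (fun j => (h j).1) j, U_P_nonneg (fun j => (h j).2.1) j,
    U_P_le zero_le_one (fun j => (h j).2.2) j⟩

lemma yy_P (n : ℕ) (x : H 𝕜) : yy (P n x) = Y (n + 1) x := by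
  have h := hasSum_yy (P n x)
  have h2 : HasSum (fun j => mu j * U (P n x) j)
      (∑ j ∈ Finset.range (n + 2), mu j * U (P n x) j) := by
    apply hasSum_sum_of_ne_finset_zero
    intro j hj
    rw [U_gt x (by have := Finset.mem_range.not.mp hj; omega), mul_zero]
  rw [h.unique h2, Y, Finset.sum_range_succ, Finset.sum_range_succ']
  conv_rhs => rw [Finset.sum_range_succ, Finset.sum_range_succ']
  have h3 : ∑ k ∈ Finset.range n, mu (k + 1) * U (P n x) (k + 1)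
      = ∑ k ∈ Finset.range n, mu (k + 1) * U x (k + 1) := by
    apply Finset.sum_congr rfl
    intro k hk
    rw [U_mid x (by omega) (by have := Finset.mem_range.mp hk; omega)]
  rw [h3, U_rel]
  have h4 := U_avg n x
  have h5 : mu 0 = 1 := by simp [mu]
  rw [h5]
  linear_combination h4

/-- the orbit of `w` -/
inductive Orb : H 𝕜 → Prop
  | base : Orb w
  | step (n : ℕ) {x : H 𝕜} : Orb x → Orb (P n x)

lemma Orb.d1 {x : H 𝕜} (h : Orb x) : D1 x := by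
  induction h with
  | base => exact D1_w
  | step n _ ih => exact D1_P ih

lemma yy_P_le {x : H 𝕜} (n : ℕ) (h : ∀ j, 0 ≤ U x j) : yy (P n x) ≤ yy x := by
  rw [yy_P]; exact Y_le_yy h _

lemma Orb.yy_le {x : H 𝕜} (h : Orb x) : yy x ≤ yy (w : H 𝕜) := by
  induction h with
  | base => exact le_rfl
  | step n hx ih => exact (yy_P_le n (fun j => (hx.d1 j).2.1)).trans ih

variable (𝕜) in
/-- `‖q‖ ^ 2` -/
def kap : ℝ := yy (q : H 𝕜)

lemma D1.yy_le {x : H 𝕜} (h : D1 x) : yy x ≤ kap 𝕜 :=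
  yy_mono fun j => by rw [U_q]; exact (h j).2.2

lemma kap_pos : 0 < kap 𝕜 := by
  have h := Y_le_yy (x := (q : H 𝕜)) (fun j => by simp [U_q]) 0
  simp only [Y, zero_add, Finset.range_one, Finset.sum_singleton, U_q, mul_one] at h
  exact lt_of_lt_of_le (mu_pos 0) h

end PartC

section PartD

variable {𝕜 : Type} [RCLike 𝕜]

/-- coordinates `1, …, N` are untouched and the tail is controlled by coordinate `N + 1` -/
def PhA (N : ℕ) (x : H 𝕜) : Prop :=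
  (∀ j, 1 ≤ j → j ≤ N → U x j = (1 / 2 : ℝ) ^ j) ∧
    (U x (N + 1) = (1 / 2 : ℝ) ^ (N + 1) ∨ ∀ j, (j = 0 ∨ N < j) → U x j ≤ U x (N + 1))

lemma Y_le_YW {x : H 𝕜} {M : ℕ} (h0 : U x 0 ≤ 1) (h : ∀ j, 1 ≤ j → j ≤ M → U x j = (1 / 2 : ℝ) ^ j) :
    Y M x ≤ YW M := by
  apply Finset.sum_le_sum
  intro j hj
  have hj2 := Finset.mem_range.mp hj
  apply mul_le_mul_of_nonneg_left _ (mu_pos j).le
  rcases Nat.eq_zero_or_pos j with rfl | hj0
  · simpa using h0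
  · exact (h j hj0 (by omega)).le

lemma PhA_step_ge {N n : ℕ} {x : H 𝕜} (hx : D1 x) (h : PhA N x) (hn : N ≤ n) : PhA N (P n x) := by
  obtain ⟨h1, h2⟩ := h
  refine ⟨fun j hj1 hj2 => by rw [U_mid x hj1 (by omega)]; exact h1 j hj1 hj2, ?_⟩
  rcases Nat.lt_or_eq_of_le hn with hn | rfl
  · rw [U_mid x (by omega : 1 ≤ N + 1) (by omega)]
    rcases h2 with h2 | h2
    · exact Or.inl h2
    · refine Or.inr fun j hj => ?_
      rcases P_cases n j with rfl | ⟨h3, h4⟩ | rfl | h3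
      · exact avg_le (h2 _ (Or.inl rfl)) (h2 _ (Or.inr (by omega)))
      · rw [U_mid x h3 h4]; exact h2 _ hj
      · rw [U_rel]; exact avg_le (h2 _ (Or.inl rfl)) (h2 _ (Or.inr (by omega)))
      · rw [U_gt x h3]; exact (hx _).2.1
  · refine Or.inr fun j hj => ?_
    rcases P_cases N j with rfl | ⟨h3, h4⟩ | rfl | h3
    · rw [U_rel]
    · omega
    · exact le_rfl
    · rw [U_gt x h3]; exact U_P_nonneg (fun j => (hx j).2.1) _

lemma PhA_step_lt {N n : ℕ} {x : H 𝕜} (hx : D1 x) (h : PhA N x) (hn : n < N) :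
    yy (P n x) ≤ YW (n + 1) := by
  rw [yy_P]
  exact Y_le_YW (hx 0).2.2 fun j hj1 hj2 => h.1 j hj1 (by omega)

lemma PhA_w (N : ℕ) : PhA N (w : H 𝕜) := ⟨fun j _ _ => U_w j, Or.inl (U_w _)⟩

/-- first invariant of the orbit -/
lemma Orb.inv1 {x : H 𝕜} (h : Orb x) (N : ℕ) : yy x ≤ YW N ∨ PhA N x := by
  induction h with
  | base => exact Or.inr (PhA_w N)
  | @step n x hx ih =>
    rcases ih with ih | ih
    · exact Or.inl ((yy_P_le n (fun j => (hx.d1 j).2.1)).trans ih)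
    · rcases Nat.lt_or_ge n N with hn | hn
      · exact Or.inl ((PhA_step_lt hx.d1 ih hn).trans (YW_mono (by omega)))
      · exact Or.inr (PhA_step_ge hx.d1 ih hn)

/-- bound of the revived coordinate -/
def hs (N : ℕ) : ℝ := (1 + mu N * (1 / 2 : ℝ) ^ N) / (1 + mu N)

/-- last letter below `N` was `N - 1` -/
def PhB (N : ℕ) (x : H 𝕜) : Prop :=
  yy x ≤ YW N ∧ (∀ j, 1 ≤ j → j < N → U x j = (1 / 2 : ℝ) ^ j) ∧
    (∀ j, (j = 0 ∨ N < j) → U x j ≤ U x N) ∧ U x N ≤ hs N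

lemma PhA_to_B {N : ℕ} {x : H 𝕜} (hx : D1 x) (h : PhA (N + 1) x) : PhB (N + 1) (P N x) := by
  have h3 : U (P N x) (N + 1) = U (P N x) 0 := U_rel N x
  refine ⟨PhA_step_lt hx h (by omega), fun j hj1 hj2 => ?_, fun j hj => ?_, ?_⟩
  · rw [U_mid x hj1 (by omega)]; exact h.1 j hj1 (by omega)
  · rcases hj with rfl | hj
    · exact h3.ge
    · rw [U_gt x hj]; exact U_P_nonneg (fun j => (hx j).2.1) _
  · rw [h3, hs, le_div_iff₀ (by linarith [mu_pos (N + 1)]), mul_comm, U_avg, h.1 (N + 1) (by omega) le_rfl]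
    linarith [(hx 0).2.2]

lemma PhB_step {N n : ℕ} {x : H 𝕜} (hx : D1 x) (h : PhB (N + 1) x) (hn : N ≤ n) :
    PhB (N + 1) (P n x) := by
  obtain ⟨h0, h1, h2, h3⟩ := h
  have hyy := (yy_P_le n (fun j => (hx j).2.1)).trans h0
  rcases Nat.lt_or_eq_of_le hn with hn | rfl
  · have h5 : U (P n x) (N + 1) = U x (N + 1) := U_mid x (by omega) (by omega)
    refine ⟨hyy, fun j hj1 hj2 => by rw [U_mid x hj1 (by omega)]; exact h1 j hj1 hj2,
      fun j hj => ?_, by rw [h5]; exact h3⟩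
    rw [h5]
    rcases P_cases n j with rfl | ⟨h6, h7⟩ | rfl | h6
    · exact avg_le (h2 _ (Or.inl rfl)) (h2 _ (Or.inr (by omega)))
    · rw [U_mid x h6 h7]; exact h2 _ hj
    · rw [U_rel]; exact avg_le (h2 _ (Or.inl rfl)) (h2 _ (Or.inr (by omega)))
    · rw [U_gt x h6]; exact (hx _).2.1
  · refine ⟨hyy, fun j hj1 hj2 => by rw [U_mid x hj1 (by omega)]; exact h1 j hj1 hj2,
      fun j hj => ?_, ?_⟩
    · rcases hj with rfl | hj
      · exact (U_rel N x).ge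
      · rw [U_gt x hj]; exact U_P_nonneg (fun j => (hx j).2.1) _
    · rw [U_rel]; exact (avg_le (h2 0 (Or.inl rfl)) le_rfl).trans h3

lemma hs_lt_one {N : ℕ} (hN : 1 ≤ N) : hs N < 1 := by
  have h1 := mu_pos N
  rw [hs, div_lt_one (by linarith)]
  have h2 : (1 / 2 : ℝ) ^ N < 1 := pow_lt_one₀ (by norm_num) (by norm_num) (by omega)
  nlinarith

/-- second invariant of the orbit -/
lemma Orb.inv2 {x : H 𝕜} (h : Orb x) (N : ℕ) :
    PhA (N + 1) x ∨ yy x ≤ YW N ∨ PhB (N + 1) x := by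
  induction h with
  | base => exact Or.inl (PhA_w _)
  | @step n x hx ih =>
    rcases ih with ih | ih | ih
    · rcases Nat.lt_trichotomy n N with hn | rfl | hn
      · exact Or.inr (Or.inl ((PhA_step_lt hx.d1 ih (by omega)).trans (YW_mono (by omega))))
      · exact Or.inr (Or.inr (PhA_to_B hx.d1 ih))
      · exact Or.inl (PhA_step_ge hx.d1 ih (by omega))
    · exact Or.inr (Or.inl ((yy_P_le n (fun j => (hx.d1 j).2.1)).trans ih))
    · rcases Nat.lt_or_ge n N with hn | hn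
      · refine Or.inr (Or.inl ?_)
        rw [yy_P]
        refine (Y_le_YW (hx.d1 0).2.2 fun j hj1 hj2 => ih.2.1 j hj1 (by omega)).trans
          (YW_mono (by omega))
      · exact Or.inr (Or.inr (PhB_step hx.d1 ih hn))

/-- comparison in phase A -/
lemma yy_le_of_tail {x : H 𝕜} {N : ℕ} {m : ℝ} (hm : 0 ≤ m)
    (h1 : ∀ j, 1 ≤ j → j ≤ N → U x j = (1 / 2 : ℝ) ^ j)
    (h2 : ∀ j, (j = 0 ∨ N < j) → U x j ≤ m) : yy x ≤ YW N - 1 + kap 𝕜 * m := by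
  have hs1 := hasSum_yy x
  have hs3 : HasSum (fun j => if j ∈ Finset.range (N + 1) then
      (if j = 0 then 0 else mu j * (1 / 2 : ℝ) ^ j) else 0)
      (∑ j ∈ Finset.range (N + 1), (if j = 0 then 0 else mu j * (1 / 2 : ℝ) ^ j)) := by
    have h3 := hasSum_sum_of_ne_finset_zero (s := Finset.range (N + 1))
        (f := fun j => (if j ∈ Finset.range (N + 1) then
          (if j = 0 then 0 else mu j * (1 / 2 : ℝ) ^ j) else 0))
        (L := SummationFilter.unconditional ℕ) (by intro j hj; simp [hj])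
    rwa [Finset.sum_congr rfl (g := fun j => (if j = 0 then 0 else mu j * (1 / 2 : ℝ) ^ j))
      (fun j hj => by simp only [hj, if_true])] at h3
  have hs2 := ((hasSum_yy (q : H 𝕜)).mul_right m).add hs3
  have h4 := hasSum_le (fun j => ?_) hs1 hs2
  · refine h4.trans ?_
    rw [← kap, YW, Finset.sum_range_succ', Finset.sum_range_succ' (fun j => mu j * (1 / 2 : ℝ) ^ j)]
    simp [mu]
    linarith
  · rw [U_q, mul_one]
    have hmu := mu_pos j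
    by_cases hj : j ∈ Finset.range (N + 1)
    · have hj2 := Finset.mem_range.mp hj
      simp only [hj, if_true]
      rcases Nat.eq_zero_or_pos j with rfl | hj0
      · simp only [if_true, add_zero]
        exact mul_le_mul_of_nonneg_left (h2 0 (Or.inl rfl)) hmu.le
      · rw [if_neg (by omega), h1 j hj0 (by omega)]
        have := mul_nonneg hmu.le hm
        linarith
    · simp only [hj, if_false, add_zero]
      have hj2 := Finset.mem_range.not.mp hj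
      exact mul_le_mul_of_nonneg_left (h2 j (Or.inr (by omega))) hmu.le

/-- inequality (W1) -/
lemma Orb.W1 {x : H 𝕜} (h : Orb x) (N : ℕ) :
    yy x ≤ YW N + kap 𝕜 * 2 ^ (N + 1) * U x (N + 1) := by
  have hk := kap_pos (𝕜 := 𝕜)
  have hU := (h.d1 (N + 1)).2.1
  have hpos : 0 ≤ kap 𝕜 * 2 ^ (N + 1) * U x (N + 1) := by positivity
  rcases h.inv1 N with h1 | ⟨h1, h2 | h2⟩
  · linarith
  · have h3 : (2 : ℝ) ^ (N + 1) * (1 / 2 : ℝ) ^ (N + 1) = 1 := by rw [← mul_pow]; norm_num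
    have h4 : kap 𝕜 * 2 ^ (N + 1) * U x (N + 1) = kap 𝕜 := by
      rw [h2, mul_assoc, h3, mul_one]
    rw [h4]
    linarith [h.d1.yy_le, one_le_YW N]
  · have h3 := yy_le_of_tail hU h1 h2
    have h4 : kap 𝕜 * U x (N + 1) ≤ kap 𝕜 * 2 ^ (N + 1) * U x (N + 1) := by
      have h5 : (1 : ℝ) ≤ 2 ^ (N + 1) := one_le_pow₀ (by norm_num)
      have h6 : 0 ≤ kap 𝕜 * U x (N + 1) := by positivity
      nlinarith
    linarith

/-- inequality (W0) -/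
lemma Orb.W0 {x : H 𝕜} (h : Orb x) (j : ℕ) (hj : 1 ≤ j) :
    |U x j - (1 / 2 : ℝ) ^ j| ≤ 8 ^ (j + 1) * (yy (w : H 𝕜) - yy x) := by
  have h0 : yy x ≤ yy (w : H 𝕜) := h.yy_le
  rcases h.inv1 j with h1 | ⟨h1, -⟩
  · have h2 : YW (j + 1) ≤ yy (w : H 𝕜) := by
      rw [← Y_w (𝕜 := 𝕜)]
      exact Y_le_yy (fun i => (D1_w i).2.1) _
    rw [YW_succ] at h2
    have h3 : mu (j + 1) * (1 / 2 : ℝ) ^ (j + 1) * 8 ^ (j + 1) = 1 := by
      rw [mu, ← mul_pow, ← mul_pow]; norm_num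
    have h4 : |U x j - (1 / 2 : ℝ) ^ j| ≤ 1 := by
      have h5 := (h.d1 j).2
      have h6 : (0 : ℝ) < (1 / 2) ^ j := by positivity
      have h7 : ((1 : ℝ) / 2) ^ j ≤ 1 := pow_le_one₀ (by norm_num) (by norm_num)
      rw [abs_le]; constructor <;> linarith
    have h8 : (0 : ℝ) < 8 ^ (j + 1) := by positivity
    nlinarith
  · rw [h1 j hj le_rfl, sub_self, abs_zero]
    have : (0 : ℝ) < 8 ^ (j + 1) := by positivity
    have h9 : 0 ≤ yy (w : H 𝕜) - yy x := by linarith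
    positivity

/-- inequality (W2) -/
lemma exists_W2 (𝕜 : Type) [RCLike 𝕜] (N : ℕ) : ∃ c K K' : ℝ, 0 < c ∧ ∀ x : H 𝕜, Orb x → ∀ M ≤ N,
    Y M x + c ≤ YW M + K * (YW (N + 1) - yy x) + K' * U x (N + 2) := by
  have hk := kap_pos (𝕜 := 𝕜)
  set c := 1 - hs (N + 1) with hc
  have hc0 : 0 < c := by rw [hc]; linarith [hs_lt_one (N := N + 1) (by omega)]
  have hs0 : 0 < hs (N + 1) := by
    have := mu_pos (N + 1)
    rw [hs]; positivity
  have hc1 : c ≤ 1 := by rw [hc]; linarith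
  set g := mu (N + 1) * (1 / 2 : ℝ) ^ (N + 1) with hg
  have hg0 : 0 < g := term_pos _
  set K := (kap 𝕜 + c) / g + 1 with hK
  have hK0 : 1 ≤ K := by rw [hK]; have : 0 < (kap 𝕜 + c) / g := by positivity
                         linarith
  have hKg : kap 𝕜 + c ≤ K * g := by
    rw [hK, add_mul, div_mul_cancel₀ _ hg0.ne']; linarith
  refine ⟨c, K, 2 ^ (N + 2) * (c + K * kap 𝕜), hc0, fun x h M hM => ?_⟩
  have hU := (h.d1 (N + 2)).2.1
  have h2p : (1 : ℝ) ≤ 2 ^ (N + 2) := one_le_pow₀ (by norm_num)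
  have hposK : 0 ≤ 2 ^ (N + 2) * (c + K * kap 𝕜) * U x (N + 2) := by positivity
  have hnn : ∀ j, 0 ≤ U x j := fun j => (h.d1 j).2.1
  have hyk := h.d1.yy_le
  have hYy : Y M x ≤ kap 𝕜 := (Y_le_yy hnn M).trans hyk
  rcases h.inv2 N with ⟨h1, h2 | h2⟩ | h1 | ⟨h1, h2, h3, h4⟩
  · have h5 : Y M x ≤ YW M := Y_le_YW (h.d1 0).2.2 fun j hj1 hj2 => h1 j hj1 (by omega)
    have h3 : (2 : ℝ) ^ (N + 2) * (1 / 2 : ℝ) ^ (N + 2) = 1 := by rw [← mul_pow]; norm_num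
    have h4 : 2 ^ (N + 2) * (c + K * kap 𝕜) * U x (N + 2) = c + K * kap 𝕜 := by
      rw [show N + 2 = N + 1 + 1 from rfl] at h3 ⊢
      rw [h2]; linear_combination (c + K * kap 𝕜) * h3
    rw [h4]
    have h6 := one_le_YW (N + 1)
    nlinarith
  · have h5 : Y M x ≤ YW M := Y_le_YW (h.d1 0).2.2 fun j hj1 hj2 => h1 j hj1 (by omega)
    have h6 := yy_le_of_tail hU h1 h2
    have h7 : K * kap 𝕜 * U x (N + 2) ≤ 2 ^ (N + 2) * (c + K * kap 𝕜) * U x (N + 2) := by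
      apply mul_le_mul_of_nonneg_right _ hU
      have : 0 ≤ c + K * kap 𝕜 := by positivity
      nlinarith
    nlinarith
  · have h5 : K * (YW (N + 1) - yy x) ≥ K * g := by
      apply mul_le_mul_of_nonneg_left _ (by linarith)
      rw [YW_succ]; linarith
    have h6 := one_le_YW M
    linarith
  · have h5 : Y M x ≤ YW M - c := by
      rw [Y, YW, Finset.sum_range_succ', Finset.sum_range_succ' (fun j => mu j * (1 / 2 : ℝ) ^ j)]
      have h6 : ∑ k ∈ Finset.range M, mu (k + 1) * U x (k + 1)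
          = ∑ k ∈ Finset.range M, mu (k + 1) * (1 / 2 : ℝ) ^ (k + 1) := by
        apply Finset.sum_congr rfl
        intro k hk
        rw [h2 (k + 1) (by omega) (by have := Finset.mem_range.mp hk; omega)]
      have h7 := h3 0 (Or.inl rfl)
      rw [h6, hc]
      simp only [mu, pow_zero, one_mul, mul_one]
      linarith
    have h8 : 0 ≤ K * (YW (N + 1) - yy x) := mul_nonneg (by linarith) (by linarith)
    linarith

end PartD

section PartE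

variable {𝕜 : Type} [RCLike 𝕜]

/-- what the label argument yields for the Hilbert space part of a norm-one projection -/
structure Good (R : H 𝕜 →L[𝕜] H 𝕜) : Prop where
  idem : ∀ x, R (R x) = R x
  norm_le : ∀ x, ‖R x‖ ≤ ‖x‖
  d1 : ∀ (x : H 𝕜) (c : ℝ), (∀ ψ : H 𝕜, D1 ψ → RCLike.re ⟪ψ, x⟫_𝕜 ≤ c) →
    ∀ ψ : H 𝕜, D1 ψ → RCLike.re ⟪ψ, R x⟫_𝕜 ≤ c
  orb : ∀ (x : H 𝕜) (c : ℝ), (∀ ψ : H 𝕜, Orb ψ → RCLike.re ⟪ψ, x⟫_𝕜 ≤ c) →
    ∀ ψ : H 𝕜, Orb ψ → RCLike.re ⟪ψ, R x⟫_𝕜 ≤ c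
  fin : FiniteDimensional 𝕜 (LinearMap.range R.toLinearMap)

lemma Good.symm {R : H 𝕜 →L[𝕜] H 𝕜} (h : Good R) (x y : H 𝕜) : ⟪R x, y⟫_𝕜 = ⟪x, R y⟫_𝕜 := by
  have hfix : ∀ z, ContinuousLinearMap.adjoint R (R z) = R z := by
    intro z
    set T := ContinuousLinearMap.adjoint R with hT
    have h1 : ‖T (R z)‖ ≤ ‖R z‖ := by
      have h2 : ‖T‖ ≤ 1 := by
        rw [hT, LinearIsometryEquiv.norm_map]
        exact ContinuousLinearMap.opNorm_le_bound _ zero_le_one (fun x => by simpa using h.norm_le x)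
      exact (T.le_opNorm _).trans (by nlinarith [norm_nonneg (R z)])
    have h3 : RCLike.re ⟪T (R z), R z⟫_𝕜 = ‖R z‖ ^ 2 := by
      rw [hT, ContinuousLinearMap.adjoint_inner_left, h.idem, inner_self_eq_norm_sq]
    have h4 : ‖T (R z) - R z‖ ^ 2 ≤ 0 := by
      rw [norm_sub_sq (𝕜 := 𝕜), h3]
      nlinarith [norm_nonneg (T (R z)), norm_nonneg (R z)]
    have h5 : ‖T (R z) - R z‖ = 0 := by nlinarith [norm_nonneg (T (R z) - R z)]
    exact sub_eq_zero.mp (norm_eq_zero.mp h5)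
  calc ⟪R x, y⟫_𝕜 = ⟪ContinuousLinearMap.adjoint R (R x), y⟫_𝕜 := by rw [hfix]
    _ = ⟪R x, R y⟫_𝕜 := ContinuousLinearMap.adjoint_inner_left _ _ _
    _ = ⟪x, ContinuousLinearMap.adjoint R (R y)⟫_𝕜 :=
        (ContinuousLinearMap.adjoint_inner_right _ _ _).symm
    _ = ⟪x, R y⟫_𝕜 := by rw [hfix]

lemma hasSum_real {a : H 𝕜} (ha : ∀ j, RCLike.im (a j) = 0) (x : H 𝕜) :
    HasSum (fun j => mu j * U a j * U x j) (RCLike.re ⟪a, x⟫_𝕜) := by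
  have h := hasSum_re_inner a x
  have h3 : (fun j => RCLike.re (⟪a j, x j⟫_𝕜)) = fun j => mu j * U a j * U x j := by
    funext j
    rw [RCLike.inner_apply, RCLike.mul_re, RCLike.conj_re, RCLike.conj_im, ha j, U, U, mu]
    have h2 : (1 / 4 : ℝ) ^ j * (2 ^ j * 2 ^ j) = 1 := by rw [← mul_pow, ← mul_pow]; norm_num
    linear_combination -(RCLike.re (a j) * RCLike.re (x j)) * h2
  rw [h3] at h
  exact h

/-- scaled unit vectors -/
def ee (j : ℕ) : H 𝕜 := (((1 / 2 : ℝ) ^ j : ℝ) : 𝕜) • e j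

lemma ee_apply (i j : ℕ) : (ee j : H 𝕜) i = if i = j then (((1 / 2 : ℝ) ^ j : ℝ) : 𝕜) else 0 := by
  by_cases h : i = j
  · subst h
    simp [ee, e_apply_self]
  · simp [ee, e_apply_ne h, h]

lemma U_ee (i j : ℕ) : U (ee j : H 𝕜) i = if i = j then 1 else 0 := by
  rw [U, ee_apply]
  split_ifs with h
  · subst h
    rw [RCLike.ofReal_re, ← mul_pow]; norm_num
  · simp

lemma D1_ee (j : ℕ) : D1 (ee j : H 𝕜) := by
  intro i
  refine ⟨?_, ?_, ?_⟩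
  · rw [ee_apply]; split_ifs <;> simp
  · rw [U_ee]; split_ifs <;> norm_num
  · rw [U_ee]; split_ifs <;> norm_num

lemma re_inner_ee (j : ℕ) (x : H 𝕜) : RCLike.re ⟪(ee j : H 𝕜), x⟫_𝕜 = mu j * U x j := by
  rw [ee, inner_smul_left, inner_e_left, RCLike.conj_ofReal, RCLike.re_ofReal_mul, U, mu]
  have h2 : (1 / 4 : ℝ) ^ j * 2 ^ j = (1 / 2) ^ j := by rw [← mul_pow]; norm_num
  linear_combination -(RCLike.re (x j)) * h2

lemma ext_U {x z : H 𝕜} (h : ∀ j, U x j = U z j) (hx : ∀ j, RCLike.im (x j) = 0)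
    (hz : ∀ j, RCLike.im (z j) = 0) : x = z := by
  apply lp.ext
  funext j
  apply RCLike.ext
  · have h1 := h j
    simp only [U] at h1
    exact mul_left_cancel₀ (by positivity) h1
  · rw [hx, hz]

lemma Good.pos {R : H 𝕜 →L[𝕜] H 𝕜} (h : Good R) {x : H 𝕜} (hx : ∀ j, U x j ≤ 0) (j : ℕ) :
    U (R x) j ≤ 0 := by
  have h1 := h.d1 x 0 (fun ψ hψ => ?_) (ee j) (D1_ee j)
  · rw [re_inner_ee] at h1
    have := mu_pos j
    by_contra hc
    nlinarith [mul_pos this (not_le.mp hc)]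
  · refine (hasSum_le (fun i => ?_) (hasSum_real (fun i => (hψ i).1) x) hasSum_zero)
    exact mul_nonpos_of_nonneg_of_nonpos (mul_nonneg (mu_pos i).le (hψ i).2.1) (hx i)

lemma U_neg (x : H 𝕜) (j : ℕ) : U (-x) j = - U x j := by simp [U]

lemma Good.nonneg {R : H 𝕜 →L[𝕜] H 𝕜} (h : Good R) {x : H 𝕜} (hx : ∀ j, 0 ≤ U x j) (j : ℕ) :
    0 ≤ U (R x) j := by
  have h1 := h.pos (x := -x) (fun j => by rw [U_neg]; linarith [hx j]) j
  rw [map_neg, U_neg] at h1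
  linarith

lemma Good.real {R : H 𝕜 →L[𝕜] H 𝕜} (h : Good R) {x : H 𝕜} (hx : ∀ j, RCLike.im (x j) = 0) (j : ℕ) :
    RCLike.im ((R x) j) = 0 := by
  have hU : ∀ (z : H 𝕜) (j : ℕ), U ((RCLike.I : 𝕜) • z) j = - (2 ^ j * RCLike.im (z j)) := by
    intro z j
    simp only [U, lp.coeFn_smul, Pi.smul_apply, smul_eq_mul, RCLike.I_mul_re]
    ring
  have h1 := h.pos (x := (RCLike.I : 𝕜) • x) (fun j => by rw [hU, hx]; simp) j
  have h2 := h.nonneg (x := (RCLike.I : 𝕜) • x) (fun j => by rw [hU, hx]; simp) j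
  rw [map_smul, hU] at h1 h2
  have h3 : (2 : ℝ) ^ j * RCLike.im ((R x) j) = 0 := by linarith
  exact (mul_eq_zero.mp h3).resolve_left (by positivity)

lemma Good.p_le {R : H 𝕜 →L[𝕜] H 𝕜} (h : Good R) (j : ℕ) : U (R q) j ≤ 1 := by
  have h1 := h.d1 (ee j) (mu j) (fun ψ hψ => ?_) q D1_q
  · rw [← h.symm, inner_re_symm, re_inner_ee] at h1
    have := mu_pos j
    by_contra hc
    nlinarith [mul_lt_mul_of_pos_left (not_le.mp hc) this]
  · rw [inner_re_symm, re_inner_ee]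
    have := mu_pos j
    nlinarith [(hψ j).2.2]

lemma Good.key {R : H 𝕜 →L[𝕜] H 𝕜} (h : Good R) {z : H 𝕜} (hz : R z = z) (hz0 : ∀ j, 0 ≤ U z j)
    (j : ℕ) : (1 - U (R q) j) * U z j = 0 := by
  have him : ∀ j, RCLike.im ((q - R q : H 𝕜) j) = 0 := by
    intro j
    have h1 := h.real (x := q) (fun j => (D1_q j).1) j
    have h2 := (D1_q (𝕜 := 𝕜) j).1
    simp only [lp.coeFn_sub, Pi.sub_apply, map_sub, h1, h2, sub_zero]
  have h1 := hasSum_real him z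
  have h2 : RCLike.re ⟪(q - R q : H 𝕜), z⟫_𝕜 = 0 := by
    rw [inner_sub_left, h.symm, hz, sub_self, map_zero]
  rw [h2, hasSum_zero_iff_of_nonneg] at h1
  · have h3 := congrFun h1 j
    simp only [Pi.zero_apply, U_sub, U_q] at h3
    have := mu_pos j
    rw [mul_assoc] at h3
    exact (mul_eq_zero.mp h3).resolve_left this.ne'
  · intro i
    simp only [U_sub, U_q]
    exact mul_nonneg (mul_nonneg (mu_pos i).le (by linarith [h.p_le i])) (hz0 i)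

lemma Good.p01 {R : H 𝕜 →L[𝕜] H 𝕜} (h : Good R) (j : ℕ) : U (R q) j = 1 ∨ U (R q) j = 0 := by
  have h1 := h.key (z := R q) (h.idem q) (h.nonneg (fun j => (D1_q j).2.1)) j
  rcases mul_eq_zero.mp h1 with h2 | h2
  · exact Or.inl (by linarith)
  · exact Or.inr h2

lemma Good.transfer {R : H 𝕜 →L[𝕜] H 𝕜} (h : Good R) {v : H 𝕜} {c : ℝ}
    (hv : ∀ d : H 𝕜, Orb d → RCLike.re ⟪v, d⟫_𝕜 ≤ c) : RCLike.re ⟪v, R w⟫_𝕜 ≤ c := by
  have h1 := h.orb v c (fun ψ hψ => by rw [inner_re_symm]; exact hv ψ hψ) w Orb.base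
  rw [← h.symm, inner_re_symm] at h1
  exact h1

/-- general test vector -/
def vec (a : ℝ) (s : Finset ℕ) (b : ℕ → ℝ) : H 𝕜 :=
  (a : 𝕜) • q + ∑ j ∈ s, ((b j / mu j : ℝ) : 𝕜) • ee j

lemma re_inner_vec (a : ℝ) (s : Finset ℕ) (b : ℕ → ℝ) (d : H 𝕜) :
    RCLike.re ⟪(vec a s b : H 𝕜), d⟫_𝕜 = a * yy d + ∑ j ∈ s, b j * U d j := by
  rw [vec, inner_add_left, sum_inner, inner_smul_left, map_add, RCLike.conj_ofReal,
    RCLike.re_ofReal_mul, ← yy, map_sum]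
  congr 1
  apply Finset.sum_congr rfl
  intro j _
  rw [inner_smul_left, RCLike.conj_ofReal, RCLike.re_ofReal_mul, re_inner_ee]
  have := (mu_pos j).ne'
  field_simp

lemma Good.transfer' {R : H 𝕜 →L[𝕜] H 𝕜} (h : Good R) {a c : ℝ} {s : Finset ℕ} {b : ℕ → ℝ}
    (hv : ∀ d : H 𝕜, Orb d → a * yy d + ∑ j ∈ s, b j * U d j ≤ c) :
    a * yy (R w) + ∑ j ∈ s, b j * U (R w) j ≤ c := by
  rw [← re_inner_vec]
  exact h.transfer fun d hd => by rw [re_inner_vec]; exact hv d hd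

lemma Good.W1 {R : H 𝕜 →L[𝕜] H 𝕜} (h : Good R) (N : ℕ) :
    yy (R w) ≤ YW N + kap 𝕜 * 2 ^ (N + 1) * U (R w) (N + 1) := by
  have h1 := h.transfer' (a := 1) (c := YW N) (s := {N + 1})
    (b := fun _ => -(kap 𝕜 * 2 ^ (N + 1))) (fun d hd => by
      have := hd.W1 N
      simp only [Finset.sum_singleton]
      linarith)
  simp only [Finset.sum_singleton] at h1
  linarith

lemma Good.W0 {R : H 𝕜 →L[𝕜] H 𝕜} (h : Good R) (j : ℕ) (hj : 1 ≤ j) :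
    |U (R w) j - (1 / 2 : ℝ) ^ j| ≤ 8 ^ (j + 1) * (yy (w : H 𝕜) - yy (R w)) := by
  have h1 := h.transfer' (a := 8 ^ (j + 1)) (c := 8 ^ (j + 1) * yy (w : H 𝕜) + (1 / 2 : ℝ) ^ j)
    (s := {j}) (b := fun _ => 1) (fun d hd => by
      have := (abs_le.mp (hd.W0 j hj)).2
      simp only [Finset.sum_singleton]
      linarith)
  have h2 := h.transfer' (a := 8 ^ (j + 1)) (c := 8 ^ (j + 1) * yy (w : H 𝕜) - (1 / 2 : ℝ) ^ j)
    (s := {j}) (b := fun _ => -1) (fun d hd => by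
      have := (abs_le.mp (hd.W0 j hj)).1
      simp only [Finset.sum_singleton]
      linarith)
  simp only [Finset.sum_singleton] at h1 h2
  rw [abs_le]
  constructor <;> linarith

lemma Good.W2 (𝕜 : Type) [RCLike 𝕜] (N : ℕ) : ∃ c K K' : ℝ, 0 < c ∧ ∀ R : H 𝕜 →L[𝕜] H 𝕜, Good R →
    ∀ M ≤ N, Y M (R w) + c ≤ YW M + K * (YW (N + 1) - yy (R w)) + K' * U (R w) (N + 2) := by
  obtain ⟨c, K, K', hc, hW⟩ := exists_W2 𝕜 N
  refine ⟨c, K, K', hc, fun R h M hM => ?_⟩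
  have h1 := h.transfer' (a := K) (c := YW M + K * YW (N + 1) - c)
    (s := Finset.range (M + 1) ∪ {N + 2})
    (b := fun j => if j = N + 2 then -K' else mu j) (fun d hd => by
      have := hW d hd M hM
      rw [Finset.sum_union (by simp; omega), Finset.sum_singleton, if_pos rfl]
      have h3 : ∑ j ∈ Finset.range (M + 1), (if j = N + 2 then -K' else mu j) * U d j = Y M d := by
        apply Finset.sum_congr rfl
        intro j hj
        rw [if_neg (by have := Finset.mem_range.mp hj; omega)]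
      rw [h3]
      linarith)
  rw [Finset.sum_union (by simp; omega), Finset.sum_singleton, if_pos rfl] at h1
  have h3 : ∑ j ∈ Finset.range (M + 1), (if j = N + 2 then -K' else mu j) * U (R w) j
      = Y M (R w) := by
    apply Finset.sum_congr rfl
    intro j hj
    rw [if_neg (by have := Finset.mem_range.mp hj; omega)]
  rw [h3] at h1
  linarith

end PartE

section PartF

variable {𝕜 : Type} [RCLike 𝕜]

lemma yy_add (x z : H 𝕜) : yy (x + z) = yy x + yy z := by simp [yy, inner_add_right]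
lemma yy_sub (x z : H 𝕜) : yy (x - z) = yy x - yy z := by simp [yy, inner_sub_right]

lemma Good.yyR {R : H 𝕜 →L[𝕜] H 𝕜} (h : Good R) (z : H 𝕜) :
    HasSum (fun j => mu j * U (R q) j * U z j) (yy (R z)) := by
  have h1 := hasSum_real (h.real (fun j => (D1_q j).1)) z
  rwa [h.symm, ← yy] at h1

/-- positive parts of `w - 2^{-k} q` -/
def zk (k : ℕ) : H 𝕜 := ∑ j ∈ Finset.range k, (((1 / 2 : ℝ) ^ j - (1 / 2 : ℝ) ^ k : ℝ) : 𝕜) • ee j

lemma sum_coe (s : Finset ℕ) (g : ℕ → H 𝕜) (i : ℕ) : (∑ j ∈ s, g j : H 𝕜) i = ∑ j ∈ s, g j i := by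
  rw [lp.coeFn_sum, Finset.sum_apply]

lemma zk_apply (k i : ℕ) : (zk k : H 𝕜) i =
    if i < k then ((((1 / 2 : ℝ) ^ i - (1 / 2 : ℝ) ^ k) * (1 / 2 : ℝ) ^ i : ℝ) : 𝕜) else 0 := by
  rw [zk, sum_coe]
  have : ∀ j, ((((1 / 2 : ℝ) ^ j - (1 / 2 : ℝ) ^ k : ℝ) : 𝕜) • (ee j : H 𝕜)) i
      = if i = j then ((((1 / 2 : ℝ) ^ i - (1 / 2 : ℝ) ^ k) * (1 / 2 : ℝ) ^ i : ℝ) : 𝕜) else 0 := by
    intro j
    simp only [lp.coeFn_smul, Pi.smul_apply, ee_apply, smul_eq_mul]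
    split_ifs with h
    · subst h; push_cast; ring
    · simp
  simp only [this]
  rw [Finset.sum_ite_eq]
  simp [Finset.mem_range]

lemma U_zk (k i : ℕ) : U (zk k : H 𝕜) i = if i < k then (1 / 2 : ℝ) ^ i - (1 / 2 : ℝ) ^ k else 0 := by
  rw [U, zk_apply]
  split_ifs with h
  · rw [RCLike.ofReal_re]
    have h2 : (1 / 2 : ℝ) ^ i * 2 ^ i = 1 := by rw [← mul_pow]; norm_num
    linear_combination ((1 / 2 : ℝ) ^ i - (1 / 2 : ℝ) ^ k) * h2
  · simp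

lemma im_zk (k i : ℕ) : RCLike.im ((zk k : H 𝕜) i) = 0 := by
  rw [zk_apply]; split_ifs <;> simp

lemma Good.not_all {R : H 𝕜 →L[𝕜] H 𝕜} (h : Good R) : ¬ ∀ j, U (R q) j = 1 := by
  intro hall
  have hq : R q = q := ext_U (fun j => by rw [hall, U_q]) (h.real (fun j => (D1_q j).1))
    (fun j => (D1_q j).1)
  have hyy : ∀ z : H 𝕜, yy (R z) = yy z := by
    intro z
    rw [yy, ← h.symm, hq, ← yy]
  -- `R w = w`
  have hj : ∀ j, 1 ≤ j → U (R w) j = (1 / 2 : ℝ) ^ j := by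
    intro j hj
    have h1 := h.W0 j hj
    rw [hyy, sub_self, mul_zero] at h1
    have h2 := abs_eq_zero.mp (le_antisymm h1 (abs_nonneg _))
    linarith
  have hw : R w = w := by
    refine ext_U (fun j => ?_) (h.real (fun j => (D1_w j).1)) (fun j => (D1_w j).1)
    rcases Nat.eq_zero_or_pos j with rfl | hj0
    · have h3 := hasSum_yy (R w - w : H 𝕜)
      rw [yy_sub, hyy, sub_self] at h3
      have h4 := hasSum_single (f := fun j => mu j * U (R w - w : H 𝕜) j) 0 (fun j hj0 => by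
        simp only [U_sub]
        rw [hj j (by omega), U_w, sub_self, mul_zero])
      have h5 := h3.unique h4
      rw [U_sub] at h5
      simp only [mu, pow_zero, one_mul] at h5
      linarith
    · rw [hj j hj0, U_w]
  -- `R (zk k) = zk k`
  have hz : ∀ k, R (zk k) = zk k := by
    intro k
    have hnn : ∀ j, 0 ≤ U (zk k : H 𝕜) j := by
      intro j
      rw [U_zk]
      split_ifs with hjk
      · have := pow_le_pow_of_le_one (by norm_num : (0 : ℝ) ≤ 1 / 2) (by norm_num) hjk.le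
        linarith
      · exact le_rfl
    have hge : ∀ j, U (zk k : H 𝕜) j ≤ U (R (zk k)) j := by
      intro j
      rw [U_zk]
      split_ifs with hjk
      · have h6 := h.nonneg (x := zk k - (w - (((1 / 2 : ℝ) ^ k : ℝ) : 𝕜) • q)) (fun i => ?_) j
        · rw [map_sub, map_sub, map_smul, hw, hq, U_sub, U_sub, U_smul, U_w, U_q] at h6
          linarith
        · rw [U_sub, U_sub, U_smul, U_w, U_q, U_zk]
          split_ifs with hik
          · linarith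
          · have := pow_le_pow_of_le_one (by norm_num : (0 : ℝ) ≤ 1 / 2) (by norm_num)
              (not_lt.mp hik)
            linarith
      · exact h.nonneg hnn j
    refine ext_U (fun j => ?_) (h.real (im_zk k)) (im_zk k)
    have h7 := hasSum_yy (R (zk k) - zk k : H 𝕜)
    rw [yy_sub, hyy, sub_self, hasSum_zero_iff_of_nonneg] at h7
    · have h8 := congrFun h7 j
      simp only [Pi.zero_apply, U_sub] at h8
      have := (mul_eq_zero.mp h8).resolve_left (mu_pos j).ne'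
      linarith
    · intro i
      simp only [U_sub]
      exact mul_nonneg (mu_pos i).le (by linarith [hge i])
  -- all unit vectors are in the range
  have hmem : ∀ k, (ee k : H 𝕜) ∈ LinearMap.range R.toLinearMap := by
    intro k
    induction k using Nat.strong_induction_on with
    | _ k ih =>
      have h9 : (zk (k + 1) : H 𝕜) = (∑ j ∈ Finset.range k,
          (((1 / 2 : ℝ) ^ j - (1 / 2 : ℝ) ^ (k + 1) : ℝ) : 𝕜) • ee j)
          + (((1 / 2 : ℝ) ^ k - (1 / 2 : ℝ) ^ (k + 1) : ℝ) : 𝕜) • ee k := by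
        rw [zk, Finset.sum_range_succ]
      have hne : (((1 / 2 : ℝ) ^ k - (1 / 2 : ℝ) ^ (k + 1) : ℝ) : 𝕜) ≠ 0 := by
        rw [Ne, RCLike.ofReal_eq_zero, pow_succ]
        have : (0 : ℝ) < (1 / 2) ^ k := by positivity
        intro hc
        linarith
      have h10 : (ee k : H 𝕜) = ((((1 / 2 : ℝ) ^ k - (1 / 2 : ℝ) ^ (k + 1) : ℝ) : 𝕜))⁻¹ •
          (zk (k + 1) - ∑ j ∈ Finset.range k,
          (((1 / 2 : ℝ) ^ j - (1 / 2 : ℝ) ^ (k + 1) : ℝ) : 𝕜) • ee j) := by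
        rw [h9, add_sub_cancel_left, smul_smul, inv_mul_cancel₀ hne, one_smul]
      rw [h10]
      refine Submodule.smul_mem _ _ (Submodule.sub_mem _ ⟨zk (k + 1), hz _⟩
        (Submodule.sum_mem _ fun j hj => Submodule.smul_mem _ _ (ih j (Finset.mem_range.mp hj))))
  have hmem2 : ∀ k, (e k : H 𝕜) ∈ LinearMap.range R.toLinearMap := by
    intro k
    have hne : (((1 / 2 : ℝ) ^ k : ℝ) : 𝕜) ≠ 0 := by
      rw [Ne, RCLike.ofReal_eq_zero]; positivity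
    have : (e k : H 𝕜) = ((((1 / 2 : ℝ) ^ k : ℝ) : 𝕜))⁻¹ • ee k := by
      rw [ee, smul_smul, inv_mul_cancel₀ hne, one_smul]
    rw [this]
    exact Submodule.smul_mem _ _ (hmem k)
  have hli : LinearIndependent 𝕜 (e : ℕ → H 𝕜) := by
    apply Orthonormal.linearIndependent
    rw [orthonormal_iff_ite]
    intro i j
    rw [inner_e_left]
    by_cases hij : i = j
    · subst hij; simp [e_apply_self]
    · simp [e_apply_ne hij, hij]
  have := h.fin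
  let b : ℕ → LinearMap.range R.toLinearMap := fun k => ⟨e k, hmem2 k⟩
  have hb : LinearIndependent 𝕜 b := by
    apply LinearIndependent.of_comp (LinearMap.range R.toLinearMap).subtype
    exact hli
  have : Finite ℕ := hb.finite
  exact not_finite ℕ

lemma Good.struct {R : H 𝕜 →L[𝕜] H 𝕜} (h : Good R) (h0 : 0 < U (R w) 0) :
    ∃ N, (∀ j, j ≤ N → U (R q) j = 1) ∧ (∀ j, N < j → U (R q) j = 0) ∧
      yy (R w) = YW N ∧ U (R w) (N + 1) = 0 := by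
  classical
  have hRw : ∀ j, 0 ≤ U (R w) j := h.nonneg (fun j => (D1_w j).2.1)
  have hkey := h.key (z := R w) (h.idem w) hRw
  have h1 : ∃ i, U (R q) i ≠ 1 := by
    by_contra hc
    push Not at hc
    exact h.not_all hc
  set i := Nat.find h1 with hi
  have hi1 : U (R q) i ≠ 1 := Nat.find_spec h1
  have hi2 : ∀ j, j < i → U (R q) j = 1 := fun j hj => by
    have := Nat.find_min h1 hj
    exact not_not.mp this
  have hi0 : i ≠ 0 := by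
    intro hc
    have := hkey 0
    rw [hc] at hi1
    rcases mul_eq_zero.mp this with h2 | h2
    · exact hi1 (by linarith)
    · exact h0.ne' h2
  obtain ⟨N, hN⟩ : ∃ N, i = N + 1 := ⟨i - 1, by omega⟩
  rw [hN] at hi1 hi2
  have hUi : U (R w) (N + 1) = 0 := by
    have := hkey (N + 1)
    rcases mul_eq_zero.mp this with h2 | h2
    · exact absurd (by linarith) hi1
    · exact h2
  have hle : yy (R w) ≤ YW N := by
    have := h.W1 N
    rw [hUi, mul_zero, add_zero] at this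
    exact this
  have hsum := h.yyR w
  have hnn : ∀ j, 0 ≤ mu j * U (R q) j * U (w : H 𝕜) j := fun j =>
    mul_nonneg (mul_nonneg (mu_pos j).le (h.nonneg (fun j => (D1_q j).2.1) j)) (D1_w j).2.1
  have hN1 : ∑ j ∈ Finset.range (N + 1), mu j * U (R q) j * U (w : H 𝕜) j = YW N := by
    apply Finset.sum_congr rfl
    intro j hj
    rw [hi2 j (Finset.mem_range.mp hj), mul_one, U_w]
  refine ⟨N, fun j hj => hi2 j (by omega), fun j hj => ?_, le_antisymm hle ?_, hUi⟩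
  · rcases h.p01 j with h2 | h2
    · exfalso
      have hj2 : j ∉ Finset.range (N + 1) := by simp; omega
      have h3 := sum_le_hasSum (insert j (Finset.range (N + 1))) (fun i _ => hnn i) hsum
      rw [Finset.sum_insert hj2, hN1, h2, U_w] at h3
      have h4 := term_pos j
      linarith
    · exact h2
  · have h3 := sum_le_hasSum (Finset.range (N + 1)) (fun i _ => hnn i) hsum
    rw [hN1] at h3
    exact h3

end PartF

section PartG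

variable {𝕜 : Type} [RCLike 𝕜]

lemma U_tendsto {g : ℕ → H 𝕜} {z : H 𝕜} (h : Tendsto g atTop (𝓝 z)) (j : ℕ) :
    Tendsto (fun n => U (g n) j) atTop (𝓝 (U z j)) := by
  have hc : Continuous (fun x : H 𝕜 => U x j) := by
    have h1 : (fun x : H 𝕜 => U x j) = fun x => 2 ^ j * RCLike.re (⟪(e j : H 𝕜), x⟫_𝕜) := by
      funext x
      rw [inner_e_left, U]
    rw [h1]
    fun_prop
  exact (hc.tendsto z).comp h

theorem core (R : ℕ → H 𝕜 →L[𝕜] H 𝕜) (hg : ∀ n, Good (R n))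
    (hnest : ∀ m n, m ≤ n → ∀ x, R n (R m x) = R m x)
    (hlim : ∀ x, Tendsto (fun n => R n x) atTop (𝓝 x)) : False := by
  have hU := U_tendsto (hlim (w : H 𝕜))
  have hpos : ∀ j, ∀ᶠ n in atTop, 0 < U (R n w) j := by
    intro j
    apply (hU j).eventually_const_lt
    rw [U_w]; positivity
  obtain ⟨m, hm⟩ := (hpos 0).exists_forall_of_atTop
  obtain ⟨M, hM1, hM2, -, -⟩ := (hg m).struct (hm m le_rfl)
  obtain ⟨n1, hn1⟩ := (hpos (M + 1)).exists_forall_of_atTop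
  set n := max m n1 with hn
  obtain ⟨N, hN1, hN2, hN3, hN4⟩ := (hg n).struct (hm n (le_max_left _ _))
  have hpn := hn1 n (le_max_right _ _)
  have hMN : M + 1 ≤ N := by
    by_contra hc
    have h1 := hN2 (M + 1) (by omega)
    have h2 := (hg n).key (z := R n w) ((hg n).idem w)
      ((hg n).nonneg (fun j => (D1_w j).2.1)) (M + 1)
    rw [h1, sub_zero, one_mul] at h2
    exact hpn.ne' h2
  obtain ⟨N', rfl⟩ : ∃ N', N = N' + 1 := ⟨N - 1, by omega⟩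
  obtain ⟨c, K, K', hc, hW⟩ := Good.W2 𝕜 N'
  have h1 := hW (R n) (hg n) M (by omega)
  rw [hN3, sub_self, mul_zero, hN4, mul_zero] at h1
  have hYM : ∀ x : H 𝕜, RCLike.re ⟪R m q, x⟫_𝕜 = Y M x := by
    intro x
    have h2 := hasSum_real ((hg m).real (fun j => (D1_q j).1)) x
    have h3 : HasSum (fun j => mu j * U (R m q) j * U x j)
        (∑ j ∈ Finset.range (M + 1), mu j * U (R m q) j * U x j) := by
      apply hasSum_sum_of_ne_finset_zero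
      intro j hj
      rw [hM2 j (by have := Finset.mem_range.not.mp hj; omega), mul_zero, zero_mul]
    rw [h2.unique h3]
    apply Finset.sum_congr rfl
    intro j hj
    rw [hM1 j (by have := Finset.mem_range.mp hj; omega), mul_one]
  have h4 : Y M (R n w) = YW M := by
    rw [← hYM, ← (hg n).symm, hnest m n (le_max_left _ _), hYM, Y_w]
  linarith

end PartG

section PartH

variable (𝕜 : Type) [RCLike 𝕜]

/-- the set of (coefficients of) functionals defining the new norm -/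
def Fam : Set (ℝ × ℝ × H 𝕜) :=
  {p | p.1 = 3 / 5 ∧ p.2.1 = 4 / 5 ∧ p.2.2 = 0} ∪
  {p | p.1 = 4 / 5 ∧ p.2.1 = -3 / 5 ∧ p.2.2 = 0} ∪
  {p | p.1 = 1 ∧ p.2.1 = 0 ∧ ‖p.2.2‖ ≤ 1} ∪
  {p | p.1 = 0 ∧ p.2.1 = 1 ∧ D1 p.2.2} ∪
  {p | p.1 = 3 / 5 ∧ p.2.1 = -4 / 5 ∧ Orb p.2.2}

/-- the underlying vector space `𝕜 × 𝕜 × ℓ²` -/
def E : Type := 𝕜 × 𝕜 × H 𝕜

instance : AddCommGroup (E 𝕜) := inferInstanceAs (AddCommGroup (𝕜 × 𝕜 × H 𝕜))
instance : Module 𝕜 (E 𝕜) := inferInstanceAs (Module 𝕜 (𝕜 × 𝕜 × H 𝕜))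

variable {𝕜}

/-- the functional attached to coefficients `(α, β, ψ)` -/
def phi (p : ℝ × ℝ × H 𝕜) : E 𝕜 →ₗ[𝕜] 𝕜 where
  toFun v := (p.1 : 𝕜) * v.1 + (p.2.1 : 𝕜) * v.2.1 + ⟪p.2.2, v.2.2⟫_𝕜
  map_add' u v := by
    change (p.1 : 𝕜) * (u.1 + v.1) + (p.2.1 : 𝕜) * (u.2.1 + v.2.1) + ⟪p.2.2, u.2.2 + v.2.2⟫_𝕜 = _
    rw [inner_add_right]; ring
  map_smul' c v := by
    change (p.1 : 𝕜) * (c * v.1) + (p.2.1 : 𝕜) * (c * v.2.1) + ⟪p.2.2, c • v.2.2⟫_𝕜 = c * _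
    rw [inner_smul_right]; ring

lemma phi_apply (p : ℝ × ℝ × H 𝕜) (v : E 𝕜) :
    phi p v = (p.1 : 𝕜) * v.1 + (p.2.1 : 𝕜) * v.2.1 + ⟪p.2.2, v.2.2⟫_𝕜 := rfl

/-- common bound for the Hilbert parts -/
def Bd (𝕜 : Type) [RCLike 𝕜] : ℝ := 1 + Real.sqrt (kap 𝕜)

lemma Bd_one_le : 1 ≤ Bd 𝕜 := by unfold Bd; linarith [Real.sqrt_nonneg (kap 𝕜)]

lemma D1.norm_le {x : H 𝕜} (h : D1 x) : ‖x‖ ≤ Bd 𝕜 := by
  have h1 : ‖x‖ ^ 2 ≤ kap 𝕜 := by
    have h2 : ‖x‖ ^ 2 = RCLike.re ⟪x, x⟫_𝕜 := (inner_self_eq_norm_sq x).symm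
    rw [h2, kap]
    refine hasSum_le (fun j => ?_) (hasSum_real (fun j => (h j).1) x) (hasSum_yy q)
    rw [U_q, mul_one, mul_assoc]
    have h3 := (h j).2
    have h4 := mu_pos j
    have h5 : U x j * U x j ≤ 1 := by nlinarith
    nlinarith
  have h2 := Real.le_sqrt_of_sq_le h1
  unfold Bd; linarith

lemma Fam_bound {p : ℝ × ℝ × H 𝕜} (hp : p ∈ Fam 𝕜) : |p.1| ≤ 1 ∧ |p.2.1| ≤ 1 ∧ ‖p.2.2‖ ≤ Bd 𝕜 := by
  have hB := Bd_one_le (𝕜 := 𝕜)
  rcases hp with (((⟨h1, h2, h3⟩ | ⟨h1, h2, h3⟩) | ⟨h1, h2, h3⟩) | ⟨h1, h2, h3⟩) | ⟨h1, h2, h3⟩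
  · rw [h1, h2, h3]; norm_num; linarith
  · rw [h1, h2, h3]; norm_num; linarith
  · rw [h1, h2]; norm_num; linarith
  · rw [h1, h2]; norm_num; exact h3.norm_le
  · rw [h1, h2]; norm_num; exact h3.d1.norm_le

lemma phi_le {p : ℝ × ℝ × H 𝕜} (hp : p ∈ Fam 𝕜) (v : E 𝕜) :
    ‖phi p v‖ ≤ ‖v.1‖ + ‖v.2.1‖ + Bd 𝕜 * ‖v.2.2‖ := by
  obtain ⟨h1, h2, h3⟩ := Fam_bound hp
  rw [phi_apply]
  refine (norm_add₃_le).trans ?_
  gcongr
  · rw [norm_mul, RCLike.norm_ofReal]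
    nlinarith [norm_nonneg v.1]
  · rw [norm_mul, RCLike.norm_ofReal]
    nlinarith [norm_nonneg v.2.1]
  · refine (norm_inner_le_norm _ _).trans ?_
    gcongr

variable (𝕜) in
/-- target of the embedding that defines the norm -/
abbrev Tgt := lp (fun _ : Fam 𝕜 => 𝕜) ∞

variable (𝕜) in
def J : E 𝕜 →ₗ[𝕜] Tgt 𝕜 where
  toFun v := ⟨fun p => phi p.1 v, memℓp_infty ⟨‖v.1‖ + ‖v.2.1‖ + Bd 𝕜 * ‖v.2.2‖, by
    rintro _ ⟨p, rfl⟩
    exact phi_le p.2 v⟩⟩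
  map_add' u v := by
    apply lp.ext; funext p
    exact map_add (phi p.1) u v
  map_smul' c v := by
    apply lp.ext; funext p
    exact map_smul (phi p.1) c v

lemma J_apply (v : E 𝕜) (p : Fam 𝕜) : (J 𝕜 v) p = phi p.1 v := rfl

lemma mem3 {ψ : H 𝕜} (h : ‖ψ‖ ≤ 1) : ((1, 0, ψ) : ℝ × ℝ × H 𝕜) ∈ Fam 𝕜 :=
  Or.inl (Or.inl (Or.inr ⟨rfl, rfl, h⟩))
lemma mem4 {ψ : H 𝕜} (h : D1 ψ) : ((0, 1, ψ) : ℝ × ℝ × H 𝕜) ∈ Fam 𝕜 :=
  Or.inl (Or.inr ⟨rfl, rfl, h⟩)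
lemma mem5 {ψ : H 𝕜} (h : Orb ψ) : ((3 / 5, -4 / 5, ψ) : ℝ × ℝ × H 𝕜) ∈ Fam 𝕜 :=
  Or.inr ⟨rfl, rfl, h⟩
lemma mem1 : ((3 / 5, 4 / 5, 0) : ℝ × ℝ × H 𝕜) ∈ Fam 𝕜 :=
  Or.inl (Or.inl (Or.inl (Or.inl ⟨rfl, rfl, rfl⟩)))
lemma mem2 : ((4 / 5, -3 / 5, 0) : ℝ × ℝ × H 𝕜) ∈ Fam 𝕜 :=
  Or.inl (Or.inl (Or.inl (Or.inr ⟨rfl, rfl, rfl⟩)))

lemma D1_zero : D1 (0 : H 𝕜) := fun j => by simp [U]

/-- lower bounds for the norm of `J v` -/
lemma phi_le_J (v : E 𝕜) {p : ℝ × ℝ × H 𝕜} (hp : p ∈ Fam 𝕜) : ‖phi p v‖ ≤ ‖J 𝕜 v‖ :=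
  lp.norm_apply_le_norm (by simp) (J 𝕜 v) ⟨p, hp⟩

lemma J_fst (v : E 𝕜) : ‖v.1‖ ≤ ‖J 𝕜 v‖ := by
  have h := phi_le_J v (mem3 (ψ := 0) (by simp))
  simpa [phi_apply] using h

lemma J_snd (v : E 𝕜) : ‖v.2.1‖ ≤ ‖J 𝕜 v‖ := by
  have h := phi_le_J v (mem4 D1_zero)
  simpa [phi_apply] using h

lemma J_trd (v : E 𝕜) : ‖v.2.2‖ ≤ 2 * ‖J 𝕜 v‖ := by
  by_cases h0 : v.2.2 = 0
  · rw [h0, norm_zero]; positivity
  have hn : ‖v.2.2‖ ≠ 0 := norm_ne_zero_iff.mpr h0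
  set ψ : H 𝕜 := ((‖v.2.2‖⁻¹ : ℝ) : 𝕜) • v.2.2 with hψ
  have h1 : ‖ψ‖ ≤ 1 := by
    rw [hψ, norm_smul, RCLike.norm_ofReal, abs_of_nonneg (by positivity), inv_mul_cancel₀ hn]
  have h2 : ⟪ψ, v.2.2⟫_𝕜 = ((‖v.2.2‖ : ℝ) : 𝕜) := by
    rw [hψ, inner_smul_left, RCLike.conj_ofReal, inner_self_eq_norm_sq_to_K]
    push_cast
    have : ((‖v.2.2‖ : ℝ) : 𝕜) ≠ 0 := by exact_mod_cast hn
    field_simp
  have h3 := phi_le_J v (mem3 h1)
  rw [phi_apply] at h3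
  simp only [h2, RCLike.ofReal_one, one_mul, RCLike.ofReal_zero, zero_mul, add_zero] at h3
  have h4 := J_fst v
  have h5 : ‖((‖v.2.2‖ : ℝ) : 𝕜)‖ = ‖v.2.2‖ := by rw [RCLike.norm_ofReal, abs_norm]
  have h6 : ‖((‖v.2.2‖ : ℝ) : 𝕜)‖ ≤ ‖v.1 + ((‖v.2.2‖ : ℝ) : 𝕜)‖ + ‖v.1‖ := by
    have := norm_sub_le (v.1 + ((‖v.2.2‖ : ℝ) : 𝕜)) v.1
    rwa [add_sub_cancel_left] at this
  linarith

lemma J_inj : Function.Injective (J 𝕜) := by
  rw [injective_iff_map_eq_zero]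
  intro v hv
  have h1 := J_fst v
  have h2 := J_snd v
  have h3 := J_trd v
  rw [hv, norm_zero] at h1 h2 h3
  have e1 : v.1 = 0 := norm_le_zero_iff.mp h1
  have e2 : v.2.1 = 0 := norm_le_zero_iff.mp h2
  have e3 : v.2.2 = 0 := norm_le_zero_iff.mp (by linarith)
  exact Prod.ext e1 (Prod.ext e2 e3)

instance : NormedAddCommGroup (E 𝕜) := NormedAddCommGroup.induced (E 𝕜) (Tgt 𝕜) (J 𝕜) J_inj
instance : NormedSpace 𝕜 (E 𝕜) := NormedSpace.induced 𝕜 (E 𝕜) (Tgt 𝕜) (J 𝕜)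

lemma norm_def (v : E 𝕜) : ‖v‖ = ‖J 𝕜 v‖ := rfl

lemma le_norm (v : E 𝕜) {p : ℝ × ℝ × H 𝕜} (hp : p ∈ Fam 𝕜) : ‖phi p v‖ ≤ ‖v‖ := phi_le_J v hp

lemma norm_le {v : E 𝕜} {C : ℝ} (hC : 0 ≤ C) (h : ∀ p ∈ Fam 𝕜, ‖phi p v‖ ≤ C) : ‖v‖ ≤ C :=
  lp.norm_le_of_forall_le hC fun p => h p.1 p.2

lemma norm_le_sum (v : E 𝕜) : ‖v‖ ≤ ‖v.1‖ + ‖v.2.1‖ + Bd 𝕜 * ‖v.2.2‖ :=
  norm_le (by have := Bd_one_le (𝕜 := 𝕜); positivity) fun _ hp => phi_le hp v

/-- the identity as a continuous map to the product -/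
def idE : E 𝕜 →L[𝕜] 𝕜 × 𝕜 × H 𝕜 :=
  LinearMap.mkContinuous
    { toFun := fun v => (v.1, v.2.1, v.2.2), map_add' := fun _ _ => rfl, map_smul' := fun _ _ => rfl }
    2 (fun v => by
      change ‖((v.1, v.2.1, v.2.2) : 𝕜 × 𝕜 × H 𝕜)‖ ≤ 2 * ‖v‖
      rw [Prod.norm_def, Prod.norm_def]
      have h1 := J_fst v
      have h2 := J_snd v
      have h3 := J_trd v
      rw [norm_def]
      have h4 := norm_nonneg (J 𝕜 v)
      exact max_le (by linarith) (max_le (by linarith) h3))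

instance : CompleteSpace (E 𝕜) := by
  have hB := Bd_one_le (𝕜 := 𝕜)
  have h1 : IsUniformEmbedding (idE : E 𝕜 →L[𝕜] 𝕜 × 𝕜 × H 𝕜) := by
    apply ContinuousLinearMap.isUniformEmbedding_of_bound (K := ⟨2 + Bd 𝕜, by linarith⟩)
    intro v
    refine (norm_le_sum v).trans ?_
    change _ ≤ (2 + Bd 𝕜) * ‖((v.1, v.2.1, v.2.2) : 𝕜 × 𝕜 × H 𝕜)‖
    have h2 : ‖v.1‖ ≤ ‖((v.1, v.2.1, v.2.2) : 𝕜 × 𝕜 × H 𝕜)‖ := norm_fst_le _
    have h3 : ‖v.2.1‖ ≤ ‖((v.1, v.2.1, v.2.2) : 𝕜 × 𝕜 × H 𝕜)‖ :=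
      (norm_fst_le ((v.2.1, v.2.2) : 𝕜 × H 𝕜)).trans (norm_snd_le (v.1, v.2.1, v.2.2))
    have h4 : ‖v.2.2‖ ≤ ‖((v.1, v.2.1, v.2.2) : 𝕜 × 𝕜 × H 𝕜)‖ :=
      (norm_snd_le ((v.2.1, v.2.2) : 𝕜 × H 𝕜)).trans (norm_snd_le (v.1, v.2.1, v.2.2))
    nlinarith
  have h2 : Function.Surjective (idE : E 𝕜 →L[𝕜] 𝕜 × 𝕜 × H 𝕜) := fun y => ⟨y, rfl⟩
  exact (h1.isUniformInducing.completeSpace_congr h2).mpr inferInstance

end PartH

section PartI

variable {𝕜 : Type} [RCLike 𝕜]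

lemma Fam_P {a b : ℝ} {ψ : H 𝕜} (n : ℕ) (h : (a, b, ψ) ∈ Fam 𝕜) : (a, b, P n ψ) ∈ Fam 𝕜 := by
  rcases h with (((⟨h1, h2, h3⟩ | ⟨h1, h2, h3⟩) | ⟨h1, h2, h3⟩) | ⟨h1, h2, h3⟩) | ⟨h1, h2, h3⟩
  · simp only at h1 h2 h3
    subst h1 h2 h3
    rw [map_zero]; exact mem1
  · simp only at h1 h2 h3
    subst h1 h2 h3
    rw [map_zero]; exact mem2
  · simp only at h1 h2 h3
    subst h1 h2
    exact mem3 ((P_norm n ψ).trans h3)
  · simp only at h1 h2 h3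
    subst h1 h2
    exact mem4 (D1_P h3)
  · simp only at h1 h2 h3
    subst h1 h2
    exact mem5 (Orb.step n h3)

/-- the extension of `P n` to `E` -/
def PE (n : ℕ) : E 𝕜 →L[𝕜] E 𝕜 :=
  LinearMap.mkContinuous
    { toFun := fun v => (v.1, v.2.1, P n v.2.2)
      map_add' := fun u v => by
        change (u.1 + v.1, u.2.1 + v.2.1, P n (u.2.2 + v.2.2)) = _
        rw [map_add]; rfl
      map_smul' := fun c v => by
        change (c * v.1, c * v.2.1, P n (c • v.2.2)) = _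
        rw [map_smul]; rfl }
    1 (fun v => by
      rw [one_mul]
      apply norm_le (norm_nonneg _)
      rintro ⟨a, b, ψ⟩ hp
      change ‖phi (a, b, ψ) ((v.1, v.2.1, P n v.2.2) : 𝕜 × 𝕜 × H 𝕜)‖ ≤ _
      have h1 : phi (a, b, ψ) ((v.1, v.2.1, P n v.2.2) : 𝕜 × 𝕜 × H 𝕜) = phi (a, b, P n ψ) v := by
        rw [phi_apply, phi_apply]
        change (a : 𝕜) * v.1 + (b : 𝕜) * v.2.1 + ⟪ψ, P n v.2.2⟫_𝕜 = _
        rw [← P_symm]
      rw [h1]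
      exact le_norm v (Fam_P n hp))

lemma PE_apply (n : ℕ) (v : E 𝕜) : PE n v = ((v.1, v.2.1, P n v.2.2) : 𝕜 × 𝕜 × H 𝕜) := rfl

theorem capPi : IsCapPiBasis 𝕜 (E 𝕜) 1 PE where
  proj n v := by
    rw [PE_apply, PE_apply]
    change ((v.1, v.2.1, P n (P n v.2.2)) : 𝕜 × 𝕜 × H 𝕜) = _
    rw [P_idem]
  finite_rank n := by
    have := P_finite (𝕜 := 𝕜) n
    set V := LinearMap.range (P n : H 𝕜 →L[𝕜] H 𝕜).toLinearMap with hV
    let L : (𝕜 × 𝕜 × V) →ₗ[𝕜] E 𝕜 :=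
      { toFun := fun y => ((y.1, y.2.1, (y.2.2 : H 𝕜)) : 𝕜 × 𝕜 × H 𝕜)
        map_add' := fun _ _ => rfl
        map_smul' := fun _ _ => rfl }
    have h1 : LinearMap.range (PE n : E 𝕜 →L[𝕜] E 𝕜).toLinearMap ≤ LinearMap.range L := by
      rintro _ ⟨v, rfl⟩
      exact ⟨(v.1, v.2.1, ⟨P n v.2.2, ⟨v.2.2, rfl⟩⟩), rfl⟩
    exact Submodule.finiteDimensional_of_le h1
  norm_le n := LinearMap.mkContinuous_norm_le _ zero_le_one _
  tendsto v := by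
    rw [tendsto_iff_norm_sub_tendsto_zero]
    have h1 : ∀ n, ‖PE n v - v‖ ≤ Bd 𝕜 * ‖P n v.2.2 - v.2.2‖ := by
      intro n
      have h2 : PE n v - v = ((0, 0, P n v.2.2 - v.2.2) : 𝕜 × 𝕜 × H 𝕜) := by
        rw [PE_apply]
        change ((v.1 - v.1, v.2.1 - v.2.1, P n v.2.2 - v.2.2) : 𝕜 × 𝕜 × H 𝕜) = _
        rw [sub_self, sub_self]
      rw [h2]
      refine (norm_le_sum _).trans ?_
      change ‖(0 : 𝕜)‖ + ‖(0 : 𝕜)‖ + Bd 𝕜 * ‖P n v.2.2 - v.2.2‖ ≤ _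
      simp
    refine squeeze_zero (fun _ => norm_nonneg _) h1 ?_
    have h3 := (tendsto_iff_norm_sub_tendsto_zero.mp (P_tendsto v.2.2)).const_mul (Bd 𝕜)
    simpa using h3

end PartI

section PartJ

variable {𝕜 : Type} [RCLike 𝕜]

lemma norm_sq_add (a b : 𝕜) : ‖a + b‖ ^ 2 = ‖a‖ ^ 2 + 2 * RCLike.re (conj a * b) + ‖b‖ ^ 2 := by
  rw [RCLike.norm_sq_eq_def, RCLike.norm_sq_eq_def, RCLike.norm_sq_eq_def]
  simp only [map_add, RCLike.mul_re, RCLike.conj_re, RCLike.conj_im]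
  ring

lemma scalar_lim {c z z' : 𝕜} {T : ℝ}
    (h : ∀ t : ℝ, T ≤ t → ‖(t : 𝕜) * c + z'‖ ≤ ‖(t : 𝕜) * c + z‖) :
    RCLike.re (conj c * (z' - z)) ≤ 0 := by
  by_contra hc
  have hd := not_le.mp hc
  set δ := RCLike.re (conj c * (z' - z)) with hδ
  set t := max (max T 1) (‖z‖ ^ 2 / δ) with ht
  have h1 : T ≤ t := (le_max_left _ _).trans (le_max_left _ _)
  have h2 : 1 ≤ t := (le_max_right _ _).trans (le_max_left _ _)
  have h3 : ‖z‖ ^ 2 ≤ t * δ := by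
    have := le_max_right (max T 1) (‖z‖ ^ 2 / δ)
    rwa [div_le_iff₀ hd] at this
  have h4 := h t h1
  have h5 : ‖(t : 𝕜) * c + z'‖ ^ 2 ≤ ‖(t : 𝕜) * c + z‖ ^ 2 := pow_le_pow_left₀ (norm_nonneg _) h4 2
  rw [norm_sq_add, norm_sq_add] at h5
  have h6 : ∀ y : 𝕜, RCLike.re (conj ((t : 𝕜) * c) * y) = t * RCLike.re (conj c * y) := by
    intro y
    rw [show conj ((t : 𝕜) * c) = (t : 𝕜) * conj c by rw [map_mul, RCLike.conj_ofReal], mul_assoc,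
      RCLike.re_ofReal_mul]
  rw [h6, h6] at h5
  have h7 : δ = RCLike.re (conj c * z') - RCLike.re (conj c * z) := by
    rw [hδ, mul_sub, map_sub]
  have h8 : 2 * (t * δ) + ‖z'‖ ^ 2 ≤ ‖z‖ ^ 2 := by rw [h7]; linarith
  nlinarith [sq_nonneg ‖z'‖, mul_pos (by linarith : (0 : ℝ) < t) hd]

/-- label vectors -/
def fvec (a b : ℝ) : E 𝕜 := (((a : 𝕜), (b : 𝕜), (0 : H 𝕜)) : 𝕜 × 𝕜 × H 𝕜)

lemma phi_fvec (p : ℝ × ℝ × H 𝕜) (a b : ℝ) : phi p (fvec a b) = ((p.1 * a + p.2.1 * b : ℝ) : 𝕜) := by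
  rw [phi_apply]
  change (p.1 : 𝕜) * (a : 𝕜) + (p.2.1 : 𝕜) * (b : 𝕜) + ⟪p.2.2, (0 : H 𝕜)⟫_𝕜 = _
  rw [inner_zero_right, add_zero]
  push_cast
  ring

lemma norm_fvec_le {a b : ℝ} (h : a ^ 2 + b ^ 2 ≤ 1) : ‖(fvec a b : E 𝕜)‖ ≤ 1 := by
  apply norm_le zero_le_one
  intro p hp
  rw [phi_fvec, RCLike.norm_ofReal, abs_le]
  have hh : p.1 ^ 2 + p.2.1 ^ 2 = 1 := by
    rcases hp with (((⟨h1, h2, h3⟩ | ⟨h1, h2, h3⟩) | ⟨h1, h2, h3⟩) | ⟨h1, h2, h3⟩) | ⟨h1, h2, h3⟩ <;>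
    rw [h1, h2] <;> norm_num
  constructor <;> nlinarith [sq_nonneg (p.1 - a), sq_nonneg (p.2.1 - b), sq_nonneg (p.1 + a),
    sq_nonneg (p.2.1 + b)]

/-- asymptotic upper bound of the norm in a label direction -/
lemma upper {a b : ℝ} {T : ℝ × ℝ × H 𝕜 → Prop} {v : E 𝕜} {c : ℝ}
    (hdom : ∀ p ∈ Fam 𝕜, (T p ∧ p.1 * a + p.2.1 * b = 1) ∨ |p.1 * a + p.2.1 * b| ≤ 24 / 25)
    (hc : ∀ p ∈ Fam 𝕜, T p → RCLike.re (phi p v) ≤ c) {t : ℝ}
    (ht : 1 + |c| + 25 * (‖v‖ + |c|) ≤ t) :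
    ‖(t : 𝕜) • (fvec a b : E 𝕜) + v‖ ≤ t + c + ‖v‖ ^ 2 / t := by
  have hv := norm_nonneg v
  have hc0 := abs_nonneg c
  have hc1 := neg_abs_le c
  have ht0 : 0 < t := by linarith
  have hdiv : 0 ≤ ‖v‖ ^ 2 / t := by positivity
  have hrhs : 0 ≤ t + c + ‖v‖ ^ 2 / t := by linarith
  apply norm_le hrhs
  intro p hp
  rw [map_add, map_smul, phi_fvec, smul_eq_mul]
  have hz : ‖phi p v‖ ≤ ‖v‖ := le_norm v hp
  rcases hdom p hp with ⟨hT, h1⟩ | h1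
  · rw [h1, RCLike.ofReal_one, mul_one]
    have h2 := hc p hp hT
    have h3 : ‖(t : 𝕜) + phi p v‖ ^ 2 ≤ (t + c + ‖v‖ ^ 2 / t) ^ 2 := by
      rw [norm_sq_add, RCLike.conj_ofReal, RCLike.re_ofReal_mul, RCLike.norm_ofReal, sq_abs]
      have h4 : ‖phi p v‖ ^ 2 ≤ ‖v‖ ^ 2 := pow_le_pow_left₀ (norm_nonneg _) hz 2
      have h5 : t * (‖v‖ ^ 2 / t) = ‖v‖ ^ 2 := by field_simp
      nlinarith [sq_nonneg (c + ‖v‖ ^ 2 / t)]
    exact (abs_le_of_sq_le_sq' h3 hrhs).2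
  · refine (norm_add_le _ _).trans ?_
    rw [norm_mul, RCLike.norm_ofReal, RCLike.norm_ofReal, abs_of_pos ht0]
    have h2 : t * |p.1 * a + p.2.1 * b| ≤ t * (24 / 25) := mul_le_mul_of_nonneg_left h1 ht0.le
    linarith

/-- constraints on a contraction that fixes a label vector -/
lemma extract {Q : E 𝕜 →L[𝕜] E 𝕜} (hQ : ∀ v, ‖Q v‖ ≤ ‖v‖) {a b : ℝ}
    (hf : Q (fvec a b) = fvec a b) {T : ℝ × ℝ × H 𝕜 → Prop} {v : E 𝕜} {c : ℝ}
    (hdom : ∀ p ∈ Fam 𝕜, (T p ∧ p.1 * a + p.2.1 * b = 1) ∨ |p.1 * a + p.2.1 * b| ≤ 24 / 25)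
    (hc : ∀ p ∈ Fam 𝕜, T p → RCLike.re (phi p v) ≤ c) {p : ℝ × ℝ × H 𝕜} (hp : p ∈ Fam 𝕜)
    (hp1 : p.1 * a + p.2.1 * b = 1) : RCLike.re (phi p (Q v)) ≤ c := by
  have h1 : ∀ t : ℝ, 1 + |c| + 25 * (‖v‖ + |c|) ≤ t →
      RCLike.re (phi p (Q v)) ≤ c + ‖v‖ ^ 2 / t := by
    intro t ht
    have h2 := upper hdom hc ht
    have h3 : ‖phi p ((t : 𝕜) • (fvec a b : E 𝕜) + Q v)‖ ≤ ‖(t : 𝕜) • (fvec a b : E 𝕜) + v‖ := by
      refine (le_norm _ hp).trans ?_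
      have h4 : (t : 𝕜) • (fvec a b : E 𝕜) + Q v = Q ((t : 𝕜) • (fvec a b : E 𝕜) + v) := by
        rw [map_add, map_smul, hf]
      rw [h4]
      exact hQ _
    rw [map_add, map_smul, phi_fvec, hp1, RCLike.ofReal_one, smul_eq_mul, mul_one] at h3
    have h5 : t + RCLike.re (phi p (Q v)) ≤ ‖(t : 𝕜) + phi p (Q v)‖ := by
      have := RCLike.re_le_norm ((t : 𝕜) + phi p (Q v))
      rwa [map_add, RCLike.ofReal_re] at this
    linarith
  have h6 : Tendsto (fun t : ℝ => c + ‖v‖ ^ 2 / t) atTop (𝓝 (c + 0)) :=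
    tendsto_const_nhds.add (tendsto_const_nhds.div_atTop tendsto_id)
  rw [add_zero] at h6
  exact ge_of_tendsto h6 (eventually_atTop.mpr ⟨_, h1⟩)

/-- the vertex lemma -/
lemma vertex {Q : E 𝕜 →L[𝕜] E 𝕜} (hQ : ∀ v, ‖Q v‖ ≤ ‖v‖) (hidem : ∀ v, Q (Q v) = Q v) {a b : ℝ}
    (hab : a * a + b * b = 1)
    (hdom : ∀ p ∈ Fam 𝕜, p = (a, b, 0) ∨ |p.1 * a + p.2.1 * b| ≤ 24 / 25)
    (hp0 : ((a, b, 0) : ℝ × ℝ × H 𝕜) ∈ Fam 𝕜)
    (hnear : ‖Q (fvec a b) - fvec a b‖ ≤ 1 / 100) (v : E 𝕜) :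
    phi (a, b, 0) (Q v) = phi (a, b, 0) v := by
  set u : E 𝕜 →ₗ[𝕜] 𝕜 := phi (a, b, 0) with hu
  set w' := Q (fvec a b) with hw'
  set c := u w' with hc
  have hcn : 99 / 100 ≤ ‖c‖ := by
    have h1 : u (fvec a b) = 1 := by
      rw [hu, phi_fvec]
      simp only
      rw [hab]; simp
    have h2 : ‖u (w' - fvec a b)‖ ≤ 1 / 100 := (le_norm _ hp0).trans hnear
    rw [map_sub, h1] at h2
    have h3 : ‖(1 : 𝕜)‖ ≤ ‖c‖ + ‖c - 1‖ := by
      have := norm_sub_le c (c - 1)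
      rwa [sub_sub_cancel] at this
    rw [norm_one] at h3
    linarith
  have hmain : ∀ v : E 𝕜, RCLike.re (conj c * (u (Q v) - u v)) ≤ 0 := by
    intro v
    apply scalar_lim (T := 100 * ‖v‖)
    intro t ht
    have hv := norm_nonneg v
    have ht0 : 0 ≤ t := by linarith
    have h1 : u ((t : 𝕜) • w' + Q v) = (t : 𝕜) * c + u (Q v) := by
      rw [map_add, map_smul, smul_eq_mul]
    have h2 : u ((t : 𝕜) • w' + v) = (t : 𝕜) * c + u v := by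
      rw [map_add, map_smul, smul_eq_mul]
    rw [← h1, ← h2]
    have h3 : (t : 𝕜) • w' + Q v = Q ((t : 𝕜) • w' + v) := by
      rw [map_add, map_smul, hw', hidem]
    refine (le_norm _ hp0).trans ?_
    rw [h3]
    refine (hQ _).trans ?_
    apply norm_le (norm_nonneg _)
    intro p hp
    rcases hdom p hp with h4 | h4
    · rw [h4]
    · have h5 : ‖phi p w'‖ ≤ 97 / 100 := by
        have h6 : phi p w' = phi p (fvec a b) + phi p (w' - fvec a b) := by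
          rw [← map_add, add_sub_cancel]
        rw [h6]
        refine (norm_add_le _ _).trans ?_
        rw [phi_fvec, RCLike.norm_ofReal]
        have h7 := (le_norm (w' - fvec a b) hp).trans hnear
        linarith
      have h8 : ‖phi p ((t : 𝕜) • w' + v)‖ ≤ t * (97 / 100) + ‖v‖ := by
        rw [map_add, map_smul, smul_eq_mul]
        refine (norm_add_le _ _).trans ?_
        rw [norm_mul, RCLike.norm_ofReal, abs_of_nonneg ht0]
        have h9 := le_norm v hp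
        have h10 := mul_le_mul_of_nonneg_left h5 ht0
        linarith
      have h11 : t * (99 / 100) - ‖v‖ ≤ ‖u ((t : 𝕜) • w' + v)‖ := by
        rw [h2]
        have h12 := norm_sub_le ((t : 𝕜) * c + u v) (u v)
        rw [add_sub_cancel_right, norm_mul, RCLike.norm_ofReal, abs_of_nonneg ht0] at h12
        have h13 := le_norm v hp0
        have h14 := mul_le_mul_of_nonneg_left hcn ht0
        linarith
      linarith
  -- conclude
  set δ := conj c * (u (Q v) - u v) with hδ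
  have h1 := hmain (conj δ • v)
  rw [map_smul, map_smul, map_smul, smul_eq_mul, smul_eq_mul, ← mul_sub,
    mul_left_comm, ← hδ, RCLike.conj_mul] at h1
  have h2 : ‖δ‖ ^ 2 ≤ 0 := by
    have h3 : RCLike.re ((‖δ‖ : 𝕜) ^ 2) = ‖δ‖ ^ 2 := by
      rw [← RCLike.ofReal_pow, RCLike.ofReal_re]
    rwa [h3] at h1
  have h3 : ‖δ‖ = 0 := by nlinarith [norm_nonneg δ]
  have h4 : δ = 0 := norm_eq_zero.mp h3
  rw [hδ] at h4
  have h5 : conj c ≠ 0 := by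
    intro h
    have h6 : ‖conj c‖ = 0 := by rw [h, norm_zero]
    rw [RCLike.norm_conj] at h6
    linarith
  exact sub_eq_zero.mp ((mul_eq_zero.mp h4).resolve_left h5)

end PartJ

section PartK

variable {𝕜 : Type} [RCLike 𝕜]

lemma hdom1 : ∀ p ∈ Fam 𝕜, p = (3 / 5, 4 / 5, 0) ∨ |p.1 * (3 / 5) + p.2.1 * (4 / 5)| ≤ 24 / 25 := by
  rintro ⟨a, b, ψ⟩ hp
  rcases hp with (((⟨h1, h2, h3⟩ | ⟨h1, h2, h3⟩) | ⟨h1, h2, h3⟩) | ⟨h1, h2, h3⟩) | ⟨h1, h2, h3⟩ <;>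
    simp only at h1 h2 h3 <;> subst h1 h2
  · left; rw [h3]
  all_goals right; rw [abs_le]; norm_num

lemma hdom2 : ∀ p ∈ Fam 𝕜, p = (4 / 5, -3 / 5, 0) ∨
    |p.1 * (4 / 5) + p.2.1 * (-3 / 5)| ≤ 24 / 25 := by
  rintro ⟨a, b, ψ⟩ hp
  rcases hp with (((⟨h1, h2, h3⟩ | ⟨h1, h2, h3⟩) | ⟨h1, h2, h3⟩) | ⟨h1, h2, h3⟩) | ⟨h1, h2, h3⟩ <;>
    simp only at h1 h2 h3 <;> subst h1 h2
  · right; rw [abs_le]; norm_num
  · left; rw [h3]
  all_goals right; rw [abs_le]; norm_num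

def T3 (p : ℝ × ℝ × H 𝕜) : Prop := p.1 = 1 ∧ p.2.1 = 0 ∧ ‖p.2.2‖ ≤ 1
def T4 (p : ℝ × ℝ × H 𝕜) : Prop := p.1 = 0 ∧ p.2.1 = 1 ∧ D1 p.2.2
def T5 (p : ℝ × ℝ × H 𝕜) : Prop := p.1 = 3 / 5 ∧ p.2.1 = -4 / 5 ∧ Orb p.2.2

lemma hdom3 : ∀ p ∈ Fam 𝕜, (T3 p ∧ p.1 * 1 + p.2.1 * 0 = 1) ∨
    |p.1 * 1 + p.2.1 * 0| ≤ 24 / 25 := by
  rintro ⟨a, b, ψ⟩ hp
  rcases hp with (((⟨h1, h2, h3⟩ | ⟨h1, h2, h3⟩) | ⟨h1, h2, h3⟩) | ⟨h1, h2, h3⟩) | ⟨h1, h2, h3⟩ <;>
    simp only at h1 h2 h3 <;> subst h1 h2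
  · right; rw [abs_le]; norm_num
  · right; rw [abs_le]; norm_num
  · left; exact ⟨⟨rfl, rfl, h3⟩, by norm_num⟩
  all_goals right; rw [abs_le]; norm_num

lemma hdom4 : ∀ p ∈ Fam 𝕜, (T4 p ∧ p.1 * 0 + p.2.1 * 1 = 1) ∨
    |p.1 * 0 + p.2.1 * 1| ≤ 24 / 25 := by
  rintro ⟨a, b, ψ⟩ hp
  rcases hp with (((⟨h1, h2, h3⟩ | ⟨h1, h2, h3⟩) | ⟨h1, h2, h3⟩) | ⟨h1, h2, h3⟩) | ⟨h1, h2, h3⟩ <;>
    simp only at h1 h2 h3 <;> subst h1 h2
  · right; rw [abs_le]; norm_num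
  · right; rw [abs_le]; norm_num
  · right; rw [abs_le]; norm_num
  · left; exact ⟨⟨rfl, rfl, h3⟩, by norm_num⟩
  all_goals right; rw [abs_le]; norm_num

lemma hdom5 : ∀ p ∈ Fam 𝕜, (T5 p ∧ p.1 * (3 / 5) + p.2.1 * (-4 / 5) = 1) ∨
    |p.1 * (3 / 5) + p.2.1 * (-4 / 5)| ≤ 24 / 25 := by
  rintro ⟨a, b, ψ⟩ hp
  rcases hp with (((⟨h1, h2, h3⟩ | ⟨h1, h2, h3⟩) | ⟨h1, h2, h3⟩) | ⟨h1, h2, h3⟩) | ⟨h1, h2, h3⟩ <;>
    simp only at h1 h2 h3 <;> subst h1 h2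
  · right; rw [abs_le]; norm_num
  · right; rw [abs_le]; norm_num
  · right; rw [abs_le]; norm_num
  · right; rw [abs_le]; norm_num
  · left; exact ⟨⟨rfl, rfl, h3⟩, by norm_num⟩

/-- the inclusion of the Hilbert part -/
def iota : H 𝕜 →ₗ[𝕜] E 𝕜 where
  toFun x := ((0, 0, x) : 𝕜 × 𝕜 × H 𝕜)
  map_add' x y := by
    change ((0, 0, x + y) : 𝕜 × 𝕜 × H 𝕜) = ((0 + 0, 0 + 0, x + y) : 𝕜 × 𝕜 × H 𝕜)
    rw [add_zero]
  map_smul' c x := by
    change ((0, 0, c • x) : 𝕜 × 𝕜 × H 𝕜) = ((c * 0, c * 0, c • x) : 𝕜 × 𝕜 × H 𝕜)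
    rw [mul_zero]

lemma phi_iota (p : ℝ × ℝ × H 𝕜) (x : H 𝕜) : phi p (iota x) = ⟪p.2.2, x⟫_𝕜 := by
  rw [phi_apply]
  change (p.1 : 𝕜) * 0 + (p.2.1 : 𝕜) * 0 + ⟪p.2.2, x⟫_𝕜 = _
  rw [mul_zero, mul_zero, add_zero, zero_add]

lemma iota_trd (x : H 𝕜) : (iota x : E 𝕜).2.2 = x := rfl

/-- the projection onto the Hilbert part -/
def trd : E 𝕜 →ₗ[𝕜] H 𝕜 where
  toFun v := v.2.2
  map_add' _ _ := rfl
  map_smul' _ _ := rfl

lemma re_nonpos_of_norm {z : 𝕜} (h : ‖1 + z‖ ≤ 1) : RCLike.re z ≤ 0 := by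
  have h1 : ‖1 + z‖ ^ 2 ≤ 1 := by
    have := pow_le_pow_left₀ (norm_nonneg _) h 2
    simpa using this
  rw [norm_sq_add] at h1
  simp only [norm_one, map_one, one_mul, one_pow] at h1
  nlinarith [sq_nonneg ‖z‖]

lemma eq_zero_of_norm {z : 𝕜} (h : ‖1 + z‖ ≤ 1) (h0 : RCLike.re z = 0) : z = 0 := by
  have h1 : ‖1 + z‖ ^ 2 ≤ 1 := by
    have := pow_le_pow_left₀ (norm_nonneg _) h 2
    simpa using this
  rw [norm_sq_add] at h1
  simp only [norm_one, map_one, one_mul, one_pow, h0, mul_zero, add_zero] at h1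
  have h2 : ‖z‖ = 0 := by nlinarith [norm_nonneg z]
  exact norm_eq_zero.mp h2

lemma exists_unit (x : H 𝕜) : ∃ ψ : H 𝕜, ‖ψ‖ ≤ 1 ∧ ⟪ψ, x⟫_𝕜 = ((‖x‖ : ℝ) : 𝕜) := by
  by_cases h0 : x = 0
  · exact ⟨0, by simp, by simp [h0]⟩
  have hn : ‖x‖ ≠ 0 := norm_ne_zero_iff.mpr h0
  refine ⟨((‖x‖⁻¹ : ℝ) : 𝕜) • x, ?_, ?_⟩
  · rw [norm_smul, RCLike.norm_ofReal, abs_of_nonneg (by positivity), inv_mul_cancel₀ hn]
  · rw [inner_smul_left, RCLike.conj_ofReal, inner_self_eq_norm_sq_to_K]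
    push_cast
    have : ((‖x‖ : ℝ) : 𝕜) ≠ 0 := by exact_mod_cast hn
    field_simp

lemma exists_good {Q : E 𝕜 →L[𝕜] E 𝕜} (hQ : ∀ v, ‖Q v‖ ≤ ‖v‖) (hidem : ∀ v, Q (Q v) = Q v)
    (hfin : FiniteDimensional 𝕜 (LinearMap.range Q.toLinearMap))
    (hn1 : ‖Q (fvec (3 / 5) (4 / 5)) - fvec (3 / 5) (4 / 5)‖ ≤ 1 / 100)
    (hn2 : ‖Q (fvec (4 / 5) (-3 / 5)) - fvec (4 / 5) (-3 / 5)‖ ≤ 1 / 100) :
    ∃ R : H 𝕜 →L[𝕜] H 𝕜, Good R ∧ ∀ x, Q (iota x) = iota (R x) := by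
  have hv1 := vertex hQ hidem (by norm_num) hdom1 mem1 hn1
  have hv2 := vertex hQ hidem (by norm_num) hdom2 mem2 hn2
  have hc : ∀ v : E 𝕜, (Q v).1 = v.1 ∧ (Q v).2.1 = v.2.1 := by
    intro v
    have h1 := hv1 v
    have h2 := hv2 v
    rw [phi_apply, phi_apply] at h1 h2
    simp only [inner_zero_left, add_zero] at h1 h2
    push_cast at h1 h2
    constructor
    · linear_combination (3 / 5) * h1 + (4 / 5) * h2
    · linear_combination (4 / 5) * h1 - (3 / 5) * h2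
  -- the third label vector is fixed
  have hf3 : Q (fvec 1 0) = fvec 1 0 := by
    obtain ⟨h1, h2⟩ := hc (fvec 1 0)
    obtain ⟨ψ, hψ, hψ2⟩ := exists_unit (Q (fvec 1 0)).2.2
    have h3 : ‖phi (1, 0, ψ) (Q (fvec 1 0))‖ ≤ 1 :=
      (le_norm _ (mem3 hψ)).trans ((hQ _).trans (norm_fvec_le (by norm_num)))
    rw [phi_apply, h1, h2] at h3
    simp only [hψ2] at h3
    change ‖((1 : ℝ) : 𝕜) * ((1 : ℝ) : 𝕜) + ((0 : ℝ) : 𝕜) * ((0 : ℝ) : 𝕜)
      + ((‖(Q (fvec 1 0)).2.2‖ : ℝ) : 𝕜)‖ ≤ 1 at h3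
    rw [← RCLike.ofReal_mul, ← RCLike.ofReal_mul, ← RCLike.ofReal_add, ← RCLike.ofReal_add,
      RCLike.norm_ofReal, abs_le] at h3
    have h4 : ‖(Q (fvec 1 0)).2.2‖ = 0 := by
      have := norm_nonneg (Q (fvec 1 0)).2.2
      linarith [h3.2]
    exact Prod.ext h1 (Prod.ext h2 (norm_eq_zero.mp h4))
  -- the fourth one
  have hf5' : (fvec (3 / 5) (-4 / 5) : E 𝕜) = ((3 / 5 : ℝ) : 𝕜) • fvec 1 0 + ((-4 / 5 : ℝ) : 𝕜) • fvec 0 1 := by
    change (((3 / 5 : ℝ) : 𝕜), ((-4 / 5 : ℝ) : 𝕜), (0 : H 𝕜)) =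
      (((3 / 5 : ℝ) : 𝕜) * ((1 : ℝ) : 𝕜) + ((-4 / 5 : ℝ) : 𝕜) * ((0 : ℝ) : 𝕜),
       ((3 / 5 : ℝ) : 𝕜) * ((0 : ℝ) : 𝕜) + ((-4 / 5 : ℝ) : 𝕜) * ((1 : ℝ) : 𝕜),
       ((3 / 5 : ℝ) : 𝕜) • (0 : H 𝕜) + ((-4 / 5 : ℝ) : 𝕜) • (0 : H 𝕜))
    simp
  have hf4 : Q (fvec 0 1) = fvec 0 1 := by
    obtain ⟨h1, h2⟩ := hc (fvec 0 1)
    set z := (Q (fvec 0 1)).2.2 with hz
    have h3 : ∀ ψ : H 𝕜, D1 ψ → ‖1 + ⟪ψ, z⟫_𝕜‖ ≤ 1 := by
      intro ψ hψ
      have h3 : ‖phi (0, 1, ψ) (Q (fvec 0 1))‖ ≤ 1 :=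
        (le_norm _ (mem4 hψ)).trans ((hQ _).trans (norm_fvec_le (by norm_num)))
      rw [phi_apply, h1, h2] at h3
      change ‖((0 : ℝ) : 𝕜) * ((0 : ℝ) : 𝕜) + ((1 : ℝ) : 𝕜) * ((1 : ℝ) : 𝕜) + ⟪ψ, z⟫_𝕜‖ ≤ 1 at h3
      simpa using h3
    have h4 : ∀ j, U z j ≤ 0 := by
      intro j
      have h5 := re_nonpos_of_norm (h3 (ee j) (D1_ee j))
      rw [re_inner_ee] at h5
      by_contra hcon
      nlinarith [mul_pos (mu_pos j) (not_le.mp hcon)]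
    have h5 : 0 ≤ RCLike.re ⟪(w : H 𝕜), z⟫_𝕜 := by
      have h6 : ‖phi (3 / 5, -4 / 5, w) (Q (fvec (3 / 5) (-4 / 5)))‖ ≤ 1 :=
        (le_norm _ (mem5 Orb.base)).trans ((hQ _).trans (norm_fvec_le (by norm_num)))
      rw [hf5', map_add, map_smul, map_smul, hf3, map_add, map_smul, map_smul, phi_fvec, phi_apply,
        h1, h2] at h6
      change ‖((3 / 5 : ℝ) : 𝕜) * (((3 / 5 : ℝ) * 1 + (-4 / 5 : ℝ) * 0 : ℝ) : 𝕜)
        + ((-4 / 5 : ℝ) : 𝕜) * (((3 / 5 : ℝ) : 𝕜) * ((0 : ℝ) : 𝕜) + ((-4 / 5 : ℝ) : 𝕜) * ((1 : ℝ) : 𝕜)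
        + ⟪w, z⟫_𝕜)‖ ≤ 1 at h6
      have h7 : ((3 / 5 : ℝ) : 𝕜) * (((3 / 5 : ℝ) * 1 + (-4 / 5 : ℝ) * 0 : ℝ) : 𝕜)
        + ((-4 / 5 : ℝ) : 𝕜) * (((3 / 5 : ℝ) : 𝕜) * ((0 : ℝ) : 𝕜) + ((-4 / 5 : ℝ) : 𝕜) * ((1 : ℝ) : 𝕜)
        + ⟪w, z⟫_𝕜) = 1 + ((-4 / 5 : ℝ) : 𝕜) * ⟪w, z⟫_𝕜 := by
        push_cast
        ring
      rw [h7] at h6
      have h8 := re_nonpos_of_norm h6
      rw [RCLike.re_ofReal_mul] at h8
      linarith
    have h6 : RCLike.re ⟪(w : H 𝕜), z⟫_𝕜 ≤ 0 :=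
      hasSum_le (fun j => mul_nonpos_of_nonneg_of_nonpos
        (mul_nonneg (mu_pos j).le ((D1_w j).2.1)) (h4 j))
        (hasSum_real (fun j => (D1_w j).1) z) hasSum_zero
    have h7 : RCLike.re ⟪(w : H 𝕜), z⟫_𝕜 = 0 := le_antisymm h6 h5
    have h8 := (hasSum_real (fun j => (D1_w (𝕜 := 𝕜) j).1) z).neg
    rw [h7, neg_zero, hasSum_zero_iff_of_nonneg] at h8
    · have h9 : ∀ j, U z j = 0 := by
        intro j
        have := congrFun h8 j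
        simp only [Pi.zero_apply, neg_eq_zero, U_w] at this
        have h10 : mu j * (1 / 2 : ℝ) ^ j ≠ 0 := (term_pos j).ne'
        exact (mul_eq_zero.mp this).resolve_left h10
      have h10 : z = 0 := by
        apply lp.ext
        funext j
        have h11 := eq_zero_of_norm (h3 (ee j) (D1_ee j)) (by rw [re_inner_ee, h9, mul_zero])
        rw [ee, inner_smul_left, RCLike.conj_ofReal, inner_e_left] at h11
        have h12 : (((1 / 2 : ℝ) ^ j : ℝ) : 𝕜) ≠ 0 := by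
          rw [Ne, RCLike.ofReal_eq_zero]; positivity
        exact (mul_eq_zero.mp h11).resolve_left h12
      exact Prod.ext h1 (Prod.ext h2 h10)
    · intro j
      have := mul_nonpos_of_nonneg_of_nonpos
        (mul_nonneg (mu_pos j).le ((D1_w (𝕜 := 𝕜) j).2.1)) (h4 j)
      linarith
  have hf5 : Q (fvec (3 / 5) (-4 / 5)) = fvec (3 / 5) (-4 / 5) := by
    rw [hf5', map_add, map_smul, map_smul, hf3, hf4]
  -- the restriction to the Hilbert part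
  have hR : ∀ x : H 𝕜, Q (iota x) = iota (Q (iota x)).2.2 := by
    intro x
    obtain ⟨h1, h2⟩ := hc (iota x)
    exact Prod.ext h1 (Prod.ext h2 rfl)
  have hnorm : ∀ x : H 𝕜, ‖(Q (iota x)).2.2‖ ≤ ‖x‖ := by
    intro x
    obtain ⟨ψ, hψ, hψ2⟩ := exists_unit (Q (iota x)).2.2
    have h1 := extract hQ hf3 (T := T3) (v := iota x) (c := ‖x‖) hdom3 (fun p _ hT => by
      rw [phi_iota]
      refine (RCLike.re_le_norm _).trans ((norm_inner_le_norm _ _).trans ?_)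
      have := hT.2.2
      nlinarith [norm_nonneg x]) (mem3 hψ) (by norm_num)
    rw [hR, phi_iota] at h1
    simp only [hψ2, RCLike.ofReal_re] at h1
    exact h1
  let R : H 𝕜 →L[𝕜] H 𝕜 := LinearMap.mkContinuous
    (trd.comp (Q.toLinearMap.comp iota)) 1 (fun x => by rw [one_mul]; exact hnorm x)
  have hRQ : ∀ x, Q (iota x) = iota (R x) := hR
  have hphi : ∀ (p : ℝ × ℝ × H 𝕜) (x : H 𝕜), phi p (Q (iota x)) = ⟪p.2.2, R x⟫_𝕜 := by
    intro p x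
    rw [hRQ, phi_iota]
  refine ⟨R, ?_, hRQ⟩
  constructor
  · intro x
    have h1 : (iota (R (R x)) : E 𝕜) = iota (R x) := by
      rw [← hRQ, ← hRQ, hidem]
    have h2 : (iota (R (R x)) : E 𝕜).2.2 = (iota (R x) : E 𝕜).2.2 := by rw [h1]
    exact h2
  · exact hnorm
  · intro x c hx ψ hψ
    have h1 := extract hQ hf4 (T := T4) (v := iota x) (c := c) hdom4 (fun p _ hT => by
      rw [phi_iota]
      exact hx _ hT.2.2) (mem4 hψ) (by norm_num)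
    rwa [hphi] at h1
  · intro x c hx ψ hψ
    have h1 := extract hQ hf5 (T := T5) (v := iota x) (c := c) hdom5 (fun p _ hT => by
      rw [phi_iota]
      exact hx _ hT.2.2) (mem5 hψ) (by norm_num)
    rwa [hphi] at h1
  · have h1 : LinearMap.range R.toLinearMap ≤ (LinearMap.range Q.toLinearMap).map trd := by
      rintro _ ⟨x, rfl⟩
      exact ⟨Q (iota x), ⟨iota x, rfl⟩, rfl⟩
    exact Submodule.finiteDimensional_of_le h1

theorem no_nested (u : ℕ → E 𝕜 →L[𝕜] E 𝕜) (hu : IsPiBasis 𝕜 (E 𝕜) 1 u) : False := by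
  have hQ : ∀ n v, ‖u n v‖ ≤ ‖v‖ := by
    intro n v
    have h1 := (u n).le_opNorm v
    have h2 := hu.norm_le n
    nlinarith [norm_nonneg v]
  have hev : ∀ v : E 𝕜, ∀ᶠ n in atTop, ‖u n v - v‖ ≤ 1 / 100 := by
    intro v
    have h1 := tendsto_iff_norm_sub_tendsto_zero.mp (hu.tendsto v)
    exact h1.eventually_le_const (by norm_num)
  obtain ⟨n0, hn0⟩ := ((hev (fvec (3 / 5) (4 / 5))).and
    (hev (fvec (4 / 5) (-3 / 5)))).exists_forall_of_atTop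
  have h1 : ∀ n, ∃ R : H 𝕜 →L[𝕜] H 𝕜, Good R ∧ ∀ x, u (n0 + n) (iota x) = iota (R x) := by
    intro n
    have h2 := hn0 (n0 + n) (Nat.le_add_right _ _)
    exact exists_good (hQ _) (hu.proj _) (hu.finite_rank _) h2.1 h2.2
  choose R hR1 hR2 using h1
  apply core R hR1
  · intro m n hmn x
    have h2 : (iota (R n (R m x)) : E 𝕜) = iota (R m x) := by
      rw [← hR2, ← hR2]
      obtain ⟨z, hz⟩ := hu.nested (n0 + m) (n0 + n) (by omega) ⟨iota x, rfl⟩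
      change u (n0 + n) z = u (n0 + m) (iota x) at hz
      rw [← hz, hu.proj]
    exact congrArg (fun v : E 𝕜 => v.2.2) h2
  · intro x
    rw [tendsto_iff_norm_sub_tendsto_zero]
    have h2 : ∀ n, ‖R n x - x‖ ≤ 2 * ‖u (n0 + n) (iota x) - iota x‖ := by
      intro n
      rw [hR2, ← map_sub]
      exact J_trd (iota (R n x - x))
    refine squeeze_zero (fun _ => norm_nonneg _) h2 ?_
    have h3 := (tendsto_iff_norm_sub_tendsto_zero.mp (hu.tendsto (iota x : E 𝕜))).const_mul 2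
    rw [mul_zero] at h3
    exact h3.comp (tendsto_atTop_mono (fun n => Nat.le_add_left n n0) tendsto_id)

end PartK

end

/-- Over `𝕜 = ℝ` and over `𝕜 = ℂ` there is a Banach space with a `Π_1`-basis but with no
`π_1`-basis. -/
theorem result (𝕜 : Type) [RCLike 𝕜] :
    ∃ (X : Type) (_ : NormedAddCommGroup X) (_ : NormedSpace 𝕜 X) (_ : CompleteSpace X),
      (∃ u : ℕ → X →L[𝕜] X, IsCapPiBasis 𝕜 X 1 u) ∧
      ¬ ∃ u : ℕ → X →L[𝕜] X, IsPiBasis 𝕜 X 1 u :=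
  ⟨E 𝕜, inferInstance, inferInstance, inferInstance, ⟨PE, capPi⟩, fun ⟨u, hu⟩ => no_nested u hu⟩

end Pool.Agent.Results.MP_426ceb_an.NoNested
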