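import Pool.Agent.Helper640.Pi.Fin

set_option autoImplicit false

open Filter Topology

namespace Pool.Agent.Results.MP_426ceb_an.PiBasis

/-- A `Π_l`-basis of a normed space `E` over `𝕜` (real or complex scalars): a sequence of
finite rank continuous linear projections of norm at most `l` converging strongly to the
identity. -/
structure IsBigPiBasis (𝕜 : Type) [RCLike 𝕜] {E : Type} [NormedAddCommGroup E]
    [NormedSpace 𝕜 E] (l : ℝ) (u : ℕ → E →L[𝕜] E) : Prop where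
  idem : ∀ n, (u n).comp (u n) = u n
  finiteRank : ∀ n, FiniteDimensional 𝕜 (LinearMap.range (u n : E →ₗ[𝕜] E))
  tendsto : ∀ x, Tendsto (fun n => u n x) atTop (𝓝 x)
  norm_le : ∀ n, ‖u n‖ ≤ l

/-- A `π_l`-basis: a `Π_l`-basis with nested ranges. -/
structure IsSmallPiBasis (𝕜 : Type) [RCLike 𝕜] {E : Type} [NormedAddCommGroup E]
    [NormedSpace 𝕜 E] (l : ℝ) (u : ℕ → E →L[𝕜] E) : Prop extends IsBigPiBasis 𝕜 l u where
  nested : ∀ m n, m ≤ n →
    LinearMap.range (u m : E →ₗ[𝕜] E) ≤ LinearMap.range (u n : E →ₗ[𝕜] E)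

/-- Over the real and over the complex scalars there is a Banach space with a `Π_1`-basis
and without a `π_1`-basis. -/
theorem result (𝕜 : Type) [RCLike 𝕜] :
    ∃ (E : Type) (_ : NormedAddCommGroup E) (_ : NormedSpace 𝕜 E), CompleteSpace E ∧
      (∃ u : ℕ → E →L[𝕜] E, IsBigPiBasis 𝕜 1 u) ∧
      ¬ ∃ u : ℕ → E →L[𝕜] E, IsSmallPiBasis 𝕜 1 u := by
  obtain ⟨E, i1, i2, hc, ⟨u, hu⟩, hn⟩ := Pool.Agent.Helper640.PiBasis.main_final 𝕜
  refine ⟨E, i1, i2, hc, ⟨u, ⟨hu.idem, hu.fin, hu.tend, hu.norm_le⟩⟩, ?_⟩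
  rintro ⟨v, hv⟩
  exact hn ⟨v, ⟨⟨hv.idem, hv.finiteRank, hv.tendsto, hv.norm_le⟩, hv.nested⟩⟩

end Pool.Agent.Results.MP_426ceb_an.PiBasis
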